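import Mathlib

/-!
Project QT, task N4: the ring of Eisenstein integers.
-/

set_option autoImplicit false

open Complex

namespace Pool.Agent.Y692.QS

/-- the Eisenstein integers -/
abbrev Ei := QuadraticAlgebra ℤ (-1) (-1)

/-- the cube root of unity -/
def w : Ei := ⟨0, 1⟩

theorem w_re : w.re = 0 := rfl
theorem w_im : w.im = 1 := rfl

theorem mul_re (α β : Ei) : (α * β).re = α.re * β.re - α.im * β.im := by
  rw [QuadraticAlgebra.re_mul]; ring

theorem mul_im (α β : Ei) : (α * β).im = α.re * β.im + α.im * β.re - α.im * β.im := by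
  rw [QuadraticAlgebra.im_mul]; ring

theorem w_sq : w * w = -1 - w := by decide

theorem w_cube : w ^ 3 = 1 := by decide

theorem mk_eq (x y : ℤ) : (⟨x, y⟩ : Ei) = x + y * w := by
  ext
  · simp [w]
  · simp [w]

theorem eta (α : Ei) : α = α.re + α.im * w := mk_eq α.re α.im

/-- the norm -/
def nr (α : Ei) : ℤ := α.re ^ 2 - α.re * α.im + α.im ^ 2

theorem nr_eq (α : Ei) : nr α = QuadraticAlgebra.norm α := by
  rw [QuadraticAlgebra.norm_def, nr]
  ring

theorem nr_mul (α β : Ei) : nr (α * β) = nr α * nr β := by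
  simp only [nr_eq, map_mul]

theorem nr_nonneg (α : Ei) : 0 ≤ nr α := by
  unfold nr
  nlinarith [sq_nonneg (2 * α.re - α.im), sq_nonneg α.im]

theorem nr_one : nr 1 = 1 := by decide

theorem nr_neg (α : Ei) : nr (-α) = nr α := by
  unfold nr
  simp

theorem nr_int (n : ℤ) : nr (n : Ei) = n ^ 2 := by
  unfold nr
  simp

theorem nr_nat (n : ℕ) : nr (n : Ei) = (n : ℤ) ^ 2 := by
  unfold nr
  simp

theorem star_re (α : Ei) : (star α).re = α.re - α.im := by
  rw [QuadraticAlgebra.re_star]; ring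

theorem star_im (α : Ei) : (star α).im = -α.im := QuadraticAlgebra.im_star α

theorem nr_star (α : Ei) : nr (star α) = nr α := by
  unfold nr
  rw [star_re, star_im]
  ring

theorem mul_star (α : Ei) : α * star α = ((nr α : ℤ) : Ei) := by
  ext
  · rw [mul_re, star_re, star_im, QuadraticAlgebra.re_intCast, nr]
    simp
    ring
  · rw [mul_im, star_re, star_im, QuadraticAlgebra.im_intCast]
    ring

theorem star_w : star w = w ^ 2 := by decide

theorem nr_zero_iff {α : Ei} : nr α = 0 ↔ α = 0 := by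
  constructor
  · intro h
    unfold nr at h
    have h1 : α.im = 0 := by nlinarith [sq_nonneg (2 * α.re - α.im), sq_nonneg α.im]
    have h2 : α.re = 0 := by
      rw [h1] at h
      nlinarith
    ext
    · simpa using h2
    · simpa using h1
  · rintro rfl
    decide

theorem int_dvd {n : ℤ} {α : Ei} : (n : Ei) ∣ α ↔ n ∣ α.re ∧ n ∣ α.im := by
  have := QuadraticAlgebra.algebraMap_dvd_iff (R := ℤ) (a := -1) (b := -1) (r := n) (z := α)
  rw [← this]
  rfl

theorem int_dvd_int {n k : ℤ} : (n : Ei) ∣ (k : Ei) ↔ n ∣ k := by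
  rw [int_dvd]
  simp

instance : IsDomain Ei := by
  have : NoZeroDivisors Ei := by
    refine ⟨fun {a b} h => ?_⟩
    have h1 : nr a * nr b = 0 := by
      rw [← nr_mul, h]
      decide
    rcases mul_eq_zero.1 h1 with h2 | h2
    · exact Or.inl (nr_zero_iff.1 h2)
    · exact Or.inr (nr_zero_iff.1 h2)
  exact NoZeroDivisors.to_isDomain _

theorem isUnit_iff {α : Ei} : IsUnit α ↔ nr α = 1 := by
  constructor
  · rintro ⟨u, rfl⟩
    have h1 : nr (u : Ei) * nr ((u⁻¹ : Eiˣ) : Ei) = 1 := by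
      rw [← nr_mul, Units.mul_inv, nr_one]
    have h2 := nr_nonneg (u : Ei)
    have h3 := nr_nonneg ((u⁻¹ : Eiˣ) : Ei)
    rcases Int.mul_eq_one_iff_eq_one_or_neg_one.1 h1 with h | h
    · exact h.1
    · omega
  · intro h
    have := mul_star α
    rw [h, Int.cast_one] at this
    exact IsUnit.of_mul_eq_one _ this

/-- the complex cube root of unity -/
noncomputable def wC : ℂ := ⟨-1 / 2, Real.sqrt 3 / 2⟩

theorem wC_sq : wC * wC = -1 - wC := by
  have h3 : Real.sqrt 3 * Real.sqrt 3 = 3 := Real.mul_self_sqrt (by norm_num)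
  apply Complex.ext
  · simp only [wC, Complex.mul_re, Complex.sub_re, Complex.neg_re, Complex.one_re]
    nlinarith
  · simp only [wC, Complex.mul_im, Complex.sub_im, Complex.neg_im, Complex.one_im]
    ring

theorem wC_conj : (starRingEnd ℂ) wC = -1 - wC := by
  apply Complex.ext
  · simp [wC]; norm_num
  · simp [wC]

theorem wC_im : 0 < wC.im := by
  show 0 < Real.sqrt 3 / 2
  positivity

/-- reduction homomorphisms -/
noncomputable def hom {k : Type*} [CommRing k] (z : k) (hz : z * z = -1 - z) : Ei →+* k :=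
  (QuadraticAlgebra.lift (R := ℤ) (a := -1) (b := -1) ⟨z, by rw [hz]; simp [sub_eq_add_neg]⟩).toRingHom

theorem hom_w {k : Type*} [CommRing k] (z : k) (hz : z * z = -1 - z) : hom z hz w = z := by
  have := QuadraticAlgebra.lift (R := ℤ) (a := -1) (b := -1) (A := k)
  show (QuadraticAlgebra.lift (R := ℤ) (a := -1) (b := -1) ⟨z, _⟩) w = z
  simp [QuadraticAlgebra.lift, w]

theorem hom_apply {k : Type*} [CommRing k] (z : k) (hz : z * z = -1 - z) (α : Ei) :
    hom z hz α = α.re + α.im * z := by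
  conv_lhs => rw [eta α]
  rw [map_add, map_mul, map_intCast, map_intCast, hom_w]

/-- the embedding in the complex numbers -/
noncomputable def toC : Ei →+* ℂ := hom wC wC_sq

theorem toC_apply (α : Ei) : toC α = α.re + α.im * wC := hom_apply _ _ _

theorem toC_star (α : Ei) : toC (star α) = (starRingEnd ℂ) (toC α) := by
  rw [toC_apply, toC_apply, star_re, star_im, map_add, map_mul, wC_conj]
  simp
  ring

theorem toC_normSq (α : Ei) : Complex.normSq (toC α) = (nr α : ℝ) := by
  have h := Complex.mul_conj (toC α)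
  rw [← toC_star, ← map_mul, mul_star, map_intCast] at h
  exact_mod_cast h.symm

theorem toC_inj : Function.Injective toC := by
  rw [injective_iff_map_eq_zero]
  intro α h
  have := toC_normSq α
  rw [h, map_zero] at this
  exact nr_zero_iff.1 (by exact_mod_cast this.symm)

/-! ### units and normalization modulo three -/

/-- the unit congruent to `α` modulo `3` (zero if `α` is divisible by `1 - w`) -/
def epz (x y : ZMod 3) : Ei :=
  if x = 1 ∧ y = 0 then 1 else if x = 2 ∧ y = 0 then -1 else if x = 0 ∧ y = 1 then w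
  else if x = 0 ∧ y = 2 then -w else if x = 1 ∧ y = 1 then 1 + w
  else if x = 2 ∧ y = 2 then -1 - w else 0

/-- the unit congruent to `α` modulo `3` -/
def ep (α : Ei) : Ei := epz (α.re : ZMod 3) (α.im : ZMod 3)

theorem ep_mul (α β : Ei) : ep (α * β) = ep α * ep β := by
  unfold ep
  rw [mul_re, mul_im]
  push_cast
  generalize ((α.re : ℤ) : ZMod 3) = x
  generalize ((α.im : ℤ) : ZMod 3) = y
  generalize ((β.re : ℤ) : ZMod 3) = x'
  generalize ((β.im : ℤ) : ZMod 3) = y'
  revert x y x' y'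
  decide

theorem ep_star (α : Ei) : ep (star α) = star (ep α) := by
  unfold ep
  rw [star_re, star_im]
  push_cast
  generalize ((α.re : ℤ) : ZMod 3) = x
  generalize ((α.im : ℤ) : ZMod 3) = y
  revert x y
  decide

theorem ep_per {α β : Ei} (h : (3 : Ei) ∣ α - β) : ep α = ep β := by
  have h1 : (((3 : ℤ) : Ei)) ∣ α - β := by exact_mod_cast h
  obtain ⟨h2, h3⟩ := int_dvd.1 h1
  unfold ep
  congr 1
  · rw [eq_comm, ZMod.intCast_eq_intCast_iff_dvd_sub]
    simpa using h2
  · rw [eq_comm, ZMod.intCast_eq_intCast_iff_dvd_sub]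
    simpa using h3

theorem nr_mod (α : Ei) : ((nr α : ℤ) : ZMod 3) = ((α.re : ZMod 3) + α.im) ^ 2 := by
  unfold nr
  push_cast
  generalize ((α.re : ℤ) : ZMod 3) = x
  generalize ((α.im : ℤ) : ZMod 3) = y
  revert x y
  decide

theorem ep_cases (α : Ei) (h : ¬ (3 : ℤ) ∣ nr α) : ep α ^ 6 = 1 ∧ star (ep α) * ep α = 1 := by
  have h1 : ((nr α : ℤ) : ZMod 3) ≠ 0 := by
    intro h'
    exact h ((ZMod.intCast_zmod_eq_zero_iff_dvd _ 3).1 h')
  rw [nr_mod] at h1
  unfold ep
  generalize ((α.re : ℤ) : ZMod 3) = x at *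
  generalize ((α.im : ℤ) : ZMod 3) = y at *
  revert x y
  decide

theorem ep_congr (α : Ei) (h : ¬ (3 : ℤ) ∣ nr α) : (3 : Ei) ∣ α - ep α := by
  have h1 : ((nr α : ℤ) : ZMod 3) ≠ 0 := by
    intro h'
    exact h ((ZMod.intCast_zmod_eq_zero_iff_dvd _ 3).1 h')
  rw [nr_mod] at h1
  have key : ∀ x y : ZMod 3, (x + y) ^ 2 ≠ 0 →
      (((epz x y).re : ℤ) : ZMod 3) = x ∧ (((epz x y).im : ℤ) : ZMod 3) = y := by decide
  obtain ⟨k1, k2⟩ := key _ _ h1
  have h2 : (((3 : ℤ) : Ei)) ∣ α - ep α := by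
    rw [int_dvd]
    constructor
    · rw [QuadraticAlgebra.re_sub]
      exact (ZMod.intCast_eq_intCast_iff_dvd_sub _ _ 3).1 k1
    · rw [QuadraticAlgebra.im_sub]
      exact (ZMod.intCast_eq_intCast_iff_dvd_sub _ _ 3).1 k2
  exact_mod_cast h2

theorem ep_unit {u : Ei} (hu : IsUnit u) : ep u = u := by
  have h1 := isUnit_iff.1 hu
  have h3 : ¬ (3 : ℤ) ∣ nr u := by rw [h1]; decide
  obtain ⟨c, hc⟩ := ep_congr u h3
  -- both have norm one and are congruent modulo 3
  have h4 := (ep_cases u h3).2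
  have h5 : nr (ep u) = 1 := by
    have := congrArg nr h4
    rw [nr_mul, nr_star, nr_one] at this
    have h6 := nr_nonneg (ep u)
    nlinarith
  have hre : u.re - (ep u).re = 3 * c.re := by
    have := congrArg QuadraticAlgebra.re hc
    rw [QuadraticAlgebra.re_sub, mul_re] at this
    have e1 : (3 : Ei).re = 3 := rfl
    have e2 : (3 : Ei).im = 0 := rfl
    rw [this, e1, e2, zero_mul, sub_zero]
  have him : u.im - (ep u).im = 3 * c.im := by
    have := congrArg QuadraticAlgebra.im hc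
    rw [QuadraticAlgebra.im_sub, mul_im] at this
    have e1 : (3 : Ei).re = 3 := rfl
    have e2 : (3 : Ei).im = 0 := rfl
    rw [this, e1, e2, zero_mul, zero_mul, add_zero, sub_zero]
  have hb : ∀ α : Ei, nr α = 1 → -1 ≤ α.re ∧ α.re ≤ 1 ∧ -1 ≤ α.im ∧ α.im ≤ 1 := by
    intro α hα
    unfold nr at hα
    refine ⟨?_, ?_, ?_, ?_⟩
    · nlinarith [sq_nonneg (2 * α.im - α.re)]
    · nlinarith [sq_nonneg (2 * α.im - α.re)]
    · nlinarith [sq_nonneg (2 * α.re - α.im)]
    · nlinarith [sq_nonneg (2 * α.re - α.im)]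
  obtain ⟨a1, a2, a3, a4⟩ := hb u h1
  obtain ⟨b1, b2, b3, b4⟩ := hb _ h5
  have c1 : c.re = 0 := by omega
  have c2 : c.im = 0 := by omega
  ext
  · omega
  · omega

/-- the associate congruent to one modulo three -/
def ns (α : Ei) : Ei := star (ep α) * α

theorem ns_mul (α β : Ei) : ns (α * β) = ns α * ns β := by
  unfold ns
  rw [ep_mul, star_mul]
  ring

theorem ns_star (α : Ei) : ns (star α) = star (ns α) := by
  unfold ns
  rw [ep_star, star_mul]
  ring

theorem nr_ns {α : Ei} (h : ¬ (3 : ℤ) ∣ nr α) : nr (ns α) = nr α := by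
  have h4 := (ep_cases α h).2
  have h5 : nr (ep α) = 1 := by
    have := congrArg nr h4
    rw [nr_mul, nr_star, nr_one] at this
    have h6 := nr_nonneg (ep α)
    nlinarith
  unfold ns
  rw [nr_mul, nr_star, h5, one_mul]

theorem ns_one {α : Ei} (h : ¬ (3 : ℤ) ∣ nr α) : (3 : Ei) ∣ ns α - 1 := by
  obtain ⟨c, hc⟩ := ep_congr α h
  refine ⟨star (ep α) * c, ?_⟩
  unfold ns
  have h4 := (ep_cases α h).2
  calc star (ep α) * α - 1 = star (ep α) * (α - ep α) := by rw [mul_sub, h4]
    _ = _ := by rw [hc]; ring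

theorem ns_unit {u : Ei} (hu : IsUnit u) : ns u = 1 := by
  unfold ns
  rw [ep_unit hu, mul_comm, mul_star, isUnit_iff.1 hu, Int.cast_one]

theorem ns_fix {α : Ei} (h : (3 : Ei) ∣ α - 1) : ns α = α := by
  unfold ns
  have : ep α = ep 1 := ep_per h
  rw [this]
  have h1 : ep 1 = 1 := ep_unit isUnit_one
  rw [h1, star_one, one_mul]

end Pool.Agent.Y692.QS
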