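import Pool.Agent.Y692.QS.Ei

/-!
Project QT, task N4: the cubic residue character of a prime of the Eisenstein integers, and its
Jacobi sum.
-/

set_option autoImplicit false

open Complex

namespace Pool.Agent.Y692.QS

/-! ### cube roots of unity -/

theorem cube_cases {u : Ei} (h : u ^ 3 = 1) : u = 1 ∨ u = w ∨ u = w ^ 2 := by
  have e : (u - 1) * ((u - w) * (u - w ^ 2)) = 0 := by
    have h1 : (u - 1) * ((u - w) * (u - w ^ 2)) =
        u ^ 3 - u ^ 2 * (1 + w + w * w) + u * (w + w * w + w ^ 3) - w ^ 3 := by ring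
    rw [h1, w_sq, w_cube, h]
    ring
  rcases mul_eq_zero.1 e with h1 | h1
  · exact Or.inl (sub_eq_zero.1 h1)
  · rcases mul_eq_zero.1 h1 with h2 | h2
    · exact Or.inr (Or.inl (sub_eq_zero.1 h2))
    · exact Or.inr (Or.inr (sub_eq_zero.1 h2))

theorem star_cube {u : Ei} (h : u ^ 3 = 1) : u * star u = 1 ∧ star u ^ 3 = 1 := by
  rcases cube_cases h with rfl | rfl | rfl <;> decide

section field

variable {k : Type*} [Field k] {z : k}

theorem z_cube (hz : z * z = -1 - z) : z ^ 3 = 1 := by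
  linear_combination (z - 1) * hz

theorem z_ne (hz : z * z = -1 - z) (h3 : (3 : k) ≠ 0) : z ≠ 1 ∧ z ^ 2 ≠ 1 ∧ z ^ 2 ≠ z := by
  refine ⟨?_, ?_, ?_⟩
  · rintro rfl
    apply h3
    linear_combination hz
  · intro h
    apply h3
    have h1 : z = -2 := by linear_combination hz - h
    rw [h1] at hz
    linear_combination hz
  · intro h
    apply h3
    have h1 : 2 * z = -1 := by linear_combination hz - h
    linear_combination 4 * hz - (2 * z + 1) * h1

theorem root_cases (hz : z * z = -1 - z) {x : k} (h : x ^ 3 = 1) : x = 1 ∨ x = z ∨ x = z ^ 2 := by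
  have e : (x - 1) * ((x - z) * (x - z ^ 2)) = 0 := by
    have h1 : (x - 1) * ((x - z) * (x - z ^ 2)) =
        x ^ 3 - x ^ 2 * (1 + z + z * z) + x * (z + z * z + z ^ 3) - z ^ 3 := by ring
    rw [h1, hz, z_cube hz, h]
    ring
  rcases mul_eq_zero.1 e with h1 | h1
  · exact Or.inl (sub_eq_zero.1 h1)
  · rcases mul_eq_zero.1 h1 with h2 | h2
    · exact Or.inr (Or.inl (sub_eq_zero.1 h2))
    · exact Or.inr (Or.inr (sub_eq_zero.1 h2))

open Classical in
/-- lifting cube roots of unity -/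
noncomputable def cu (z x : k) : Ei :=
  if x = 1 then 1 else if x = z then w else if x = z ^ 2 then w ^ 2 else 0

theorem cu_spec (hz : z * z = -1 - z) {x : k} (h : x ^ 3 = 1) :
    cu z x ^ 3 = 1 ∧ hom z hz (cu z x) = x := by
  unfold cu
  by_cases h1 : x = 1
  · rw [if_pos h1]
    refine ⟨by decide, ?_⟩
    rw [map_one, h1]
  rw [if_neg h1]
  by_cases h2 : x = z
  · rw [if_pos h2]
    refine ⟨by decide, ?_⟩
    rw [hom_w, h2]
  rw [if_neg h2]
  have h4 : x = z ^ 2 := by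
    rcases root_cases hz h with h5 | h5 | h5
    · exact absurd h5 h1
    · exact absurd h5 h2
    · exact h5
  rw [if_pos h4]
  refine ⟨by decide, ?_⟩
  rw [map_pow, hom_w, h4]

theorem hom_inj (hz : z * z = -1 - z) (h3 : (3 : k) ≠ 0) {u v : Ei} (hu : u ^ 3 = 1)
    (hv : v ^ 3 = 1) (h : hom z hz u = hom z hz v) : u = v := by
  obtain ⟨n1, n2, n3⟩ := z_ne hz h3
  rcases cube_cases hu with rfl | rfl | rfl <;> rcases cube_cases hv with rfl | rfl | rfl <;>
    first
    | rfl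
    | (exfalso
       simp only [map_one, map_pow, hom_w] at h
       first
       | exact n1 h
       | exact n1 h.symm
       | exact n2 h
       | exact n2 h.symm
       | exact n3 h
       | exact n3 h.symm)

theorem cu_unique (hz : z * z = -1 - z) (h3 : (3 : k) ≠ 0) {u : Ei} (hu : u ^ 3 = 1) :
    cu z (hom z hz u) = u := by
  have h1 : (hom z hz u) ^ 3 = 1 := by rw [← map_pow, hu, map_one]
  obtain ⟨h2, h4⟩ := cu_spec hz h1
  exact hom_inj hz h3 h2 hu h4

theorem cu_mul (hz : z * z = -1 - z) (h3 : (3 : k) ≠ 0) {x y : k} (hx : x ^ 3 = 1)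
    (hy : y ^ 3 = 1) : cu z (x * y) = cu z x * cu z y := by
  obtain ⟨a1, a2⟩ := cu_spec hz hx
  obtain ⟨b1, b2⟩ := cu_spec hz hy
  have h1 : (cu z x * cu z y) ^ 3 = 1 := by rw [mul_pow, a1, b1, one_mul]
  have h2 := cu_unique hz h3 h1
  rw [map_mul, a2, b2] at h2
  exact h2

theorem cu_one : cu z 1 = 1 := by
  unfold cu
  rw [if_pos rfl]

theorem cu_inv (hz : z * z = -1 - z) (h3 : (3 : k) ≠ 0) {x y : k} (hx : x ^ 3 = 1)
    (hxy : x * y = 1) : cu z y = star (cu z x) := by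
  have hy : y ^ 3 = 1 := by
    have : x ^ 3 * y ^ 3 = 1 := by rw [← mul_pow, hxy, one_pow]
    rw [hx, one_mul] at this
    exact this
  have h1 := cu_mul hz h3 hx hy
  rw [hxy, cu_one] at h1
  obtain ⟨a1, a2⟩ := cu_spec hz hx
  obtain ⟨b1, b2⟩ := star_cube a1
  calc cu z y = (cu z x * star (cu z x)) * cu z y := by rw [b1, one_mul]
    _ = star (cu z x) * (cu z x * cu z y) := by ring
    _ = _ := by rw [← h1, mul_one]

end field

/-! ### the residue field of a prime of degree one -/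

section

variable {p : ℕ} [hp : Fact p.Prime] {π : Ei}

theorem im_ne (hπ : nr π = p) : ((π.im : ℤ) : ZMod p) ≠ 0 := by
  intro h
  have h1 : (p : ℤ) ∣ π.im := (ZMod.intCast_zmod_eq_zero_iff_dvd _ p).1 h
  have hpp : Prime (p : ℤ) := Nat.prime_iff_prime_int.1 hp.out
  have h2 : (p : ℤ) ∣ π.re ^ 2 := by
    have : π.re ^ 2 = nr π - π.im * (π.im - π.re) := by unfold nr; ring
    rw [this, hπ]
    exact dvd_sub dvd_rfl (Dvd.dvd.mul_right h1 _)
  have h3 := hpp.dvd_of_dvd_pow h2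
  obtain ⟨a, ha⟩ := h1
  obtain ⟨b, hb⟩ := h3
  have h4 : (p : ℤ) * (p * (b ^ 2 - b * a + a ^ 2)) = p * 1 := by
    have : (p : ℤ) * (p * (b ^ 2 - b * a + a ^ 2)) = nr π := by
      unfold nr
      rw [ha, hb]
      ring
    rw [this, hπ, mul_one]
  have h5 := mul_left_cancel₀ hpp.ne_zero h4
  exact hpp.not_isUnit (isUnit_of_dvd_one ⟨_, h5.symm⟩)

/-- the image of `w` -/
noncomputable def zt (p : ℕ) [Fact p.Prime] (π : Ei) : ZMod p :=
  -((π.re : ℤ) : ZMod p) / ((π.im : ℤ) : ZMod p)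

theorem zt_mul (hπ : nr π = p) : zt p π * ((π.im : ℤ) : ZMod p) = -((π.re : ℤ) : ZMod p) := by
  unfold zt
  exact div_mul_cancel₀ _ (im_ne hπ)

theorem zt_sq (hπ : nr π = p) : zt p π * zt p π = -1 - zt p π := by
  have h1 := zt_mul hπ
  have h0 := im_ne hπ
  have h2 : ((π.re : ℤ) : ZMod p) ^ 2 - (π.re : ZMod p) * π.im + (π.im : ZMod p) ^ 2 = 0 := by
    have := congrArg (fun n : ℤ => (n : ZMod p)) hπ
    unfold nr at this
    push_cast at this
    rw [this]
    simp
  have h3 : ((π.im : ℤ) : ZMod p) ^ 2 ≠ 0 := pow_ne_zero _ h0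
  apply mul_left_cancel₀ h3
  linear_combination (zt p π * (π.im : ZMod p) + (-(π.re : ZMod p)) + (π.im : ZMod p)) * h1 + h2

/-- the reduction modulo `π` -/
noncomputable def red (hπ : nr π = p) : Ei →+* ZMod p := hom (zt p π) (zt_sq hπ)

theorem red_self (hπ : nr π = p) : red hπ π = 0 := by
  unfold red
  rw [hom_apply]
  linear_combination zt_mul hπ

theorem red_zero (hπ : nr π = p) {α : Ei} : red hπ α = 0 ↔ π ∣ α := by
  constructor
  · intro h
    unfold red at h
    rw [hom_apply] at h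
    have h1 := zt_mul hπ
    have h0 := im_ne hπ
    have hm : (p : ℤ) ∣ (α * star π).re ∧ (p : ℤ) ∣ (α * star π).im := by
      constructor
      · rw [← ZMod.intCast_zmod_eq_zero_iff_dvd _ p, mul_re, star_re, star_im]
        push_cast
        apply mul_left_cancel₀ h0
        rw [mul_zero]
        have h2 : ((π.re : ℤ) : ZMod p) ^ 2 - (π.re : ZMod p) * π.im + (π.im : ZMod p) ^ 2 = 0 := by
          have := congrArg (fun n : ℤ => (n : ZMod p)) hπ
          unfold nr at this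
          push_cast at this
          rw [this]
          simp
        linear_combination ((π.re : ZMod p) * π.im - (π.im : ZMod p) ^ 2) * h -
          (α.im : ZMod p) * ((π.re : ZMod p) - π.im) * h1 + (α.im : ZMod p) * h2
      · rw [← ZMod.intCast_zmod_eq_zero_iff_dvd _ p, mul_im, star_re, star_im]
        push_cast
        linear_combination (-(π.im : ZMod p)) * h + (α.im : ZMod p) * h1
    obtain ⟨β, hβ⟩ := int_dvd.2 hm
    refine ⟨β, ?_⟩
    have hs : star π ≠ 0 := by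
      intro h'
      have := nr_star π
      rw [h', hπ] at this
      have h5 : nr 0 = 0 := by decide
      rw [h5] at this
      exact hp.out.ne_zero (by exact_mod_cast this.symm)
    apply mul_right_cancel₀ hs
    rw [hβ, ← hπ, ← mul_star]
    ring
  · rintro ⟨β, rfl⟩
    rw [map_mul, red_self, zero_mul]

theorem three_ne (hp3 : p ≠ 3) : (3 : ZMod p) ≠ 0 := by
  intro h
  have h1 : ((3 : ℕ) : ZMod p) = 0 := by exact_mod_cast h
  rw [ZMod.natCast_eq_zero_iff] at h1
  exact hp3 ((Nat.prime_dvd_prime_iff_eq hp.out Nat.prime_three).1 h1)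

theorem p_mod (hπ : nr π = p) (hp3 : p ≠ 3) : 3 ∣ p - 1 := by
  have hz := zt_sq hπ
  obtain ⟨n1, -, -⟩ := z_ne hz (three_ne hp3)
  have h3 := z_cube hz
  have h0 : zt p π ≠ 0 := by
    intro h
    rw [h] at h3
    norm_num at h3
  have h1 : orderOf (zt p π) = 3 := orderOf_eq_prime h3 n1
  rw [← h1]
  exact ZMod.orderOf_dvd_card_sub_one h0

theorem pow_third (hπ : nr π = p) (hp3 : p ≠ 3) {t : ZMod p} (ht : t ≠ 0) :
    (t ^ ((p - 1) / 3)) ^ 3 = 1 := by
  rw [← pow_mul, Nat.div_mul_cancel (p_mod hπ hp3)]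
  exact ZMod.pow_card_sub_one_eq_one ht

/-- the cubic residue character modulo `π` -/
noncomputable def chi (hπ : nr π = p) (hp3 : p ≠ 3) : MulChar (ZMod p) Ei where
  toFun t := if t = 0 then 0 else cu (zt p π) (t ^ ((p - 1) / 3))
  map_one' := by
    rw [if_neg one_ne_zero, one_pow, cu_one]
  map_mul' s t := by
    by_cases hs : s = 0
    · rw [hs, zero_mul, if_pos rfl, zero_mul]
    by_cases ht : t = 0
    · rw [ht, mul_zero, if_pos rfl, mul_zero]
    rw [if_neg (mul_ne_zero hs ht), if_neg hs, if_neg ht, mul_pow,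
      cu_mul (zt_sq hπ) (three_ne hp3) (pow_third hπ hp3 hs) (pow_third hπ hp3 ht)]
  map_nonunit' t ht := by
    have : t = 0 := by
      by_contra h
      exact ht (isUnit_iff_ne_zero.2 h)
    show (if t = 0 then (0 : Ei) else cu (zt p π) (t ^ ((p - 1) / 3))) = 0
    rw [if_pos this]

theorem chi_apply (hπ : nr π = p) (hp3 : p ≠ 3) {t : ZMod p} (ht : t ≠ 0) :
    chi hπ hp3 t = cu (zt p π) (t ^ ((p - 1) / 3)) := by
  show (if t = 0 then (0 : Ei) else cu (zt p π) (t ^ ((p - 1) / 3))) = _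
  rw [if_neg ht]

theorem third_pos (hπ : nr π = p) (hp3 : p ≠ 3) : 0 < (p - 1) / 3 := by
  have h1 := p_mod hπ hp3
  have h2 := hp.out.two_le
  exact Nat.div_pos (Nat.le_of_dvd (by omega) h1) (by norm_num)

theorem chi_red (hπ : nr π = p) (hp3 : p ≠ 3) (t : ZMod p) :
    red hπ (chi hπ hp3 t) = t ^ ((p - 1) / 3) := by
  by_cases ht : t = 0
  · rw [ht, MulChar.map_zero, map_zero, zero_pow (third_pos hπ hp3).ne']
  · rw [chi_apply hπ hp3 ht]
    exact (cu_spec (zt_sq hπ) (pow_third hπ hp3 ht)).2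

theorem chi_cube (hπ : nr π = p) (hp3 : p ≠ 3) {t : ZMod p} (ht : t ≠ 0) :
    chi hπ hp3 t ^ 3 = 1 := by
  rw [chi_apply hπ hp3 ht]
  exact (cu_spec (zt_sq hπ) (pow_third hπ hp3 ht)).1

theorem chi_of_cube (hπ : nr π = p) (hp3 : p ≠ 3) {t : ZMod p} (ht : t ≠ 0) :
    chi hπ hp3 (t ^ 3) = 1 := by
  rw [map_pow, chi_cube hπ hp3 ht]

theorem chi_neg_one (hπ : nr π = p) (hp3 : p ≠ 3) : chi hπ hp3 (-1) = 1 := by
  have := chi_of_cube hπ hp3 (t := -1) (neg_ne_zero.2 one_ne_zero)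
  rwa [show ((-1 : ZMod p)) ^ 3 = -1 by ring] at this

theorem chi_ne_one (hπ : nr π = p) (hp3 : p ≠ 3) : chi hπ hp3 ≠ 1 := by
  intro h
  have hcyc : IsCyclic (ZMod p)ˣ := inferInstance
  obtain ⟨g, hg⟩ := hcyc.exists_generator
  have ho : orderOf g = p - 1 := by
    rw [orderOf_eq_card_of_forall_mem_zpowers hg, Nat.card_eq_fintype_card, ZMod.card_units]
  have h1 : chi hπ hp3 (g : ZMod p) = 1 := by
    rw [h, MulChar.one_apply g.isUnit]
  have h2 := chi_red hπ hp3 (g : ZMod p)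
  rw [h1, map_one] at h2
  have h3 : g ^ ((p - 1) / 3) = 1 := by
    apply Units.ext
    rw [Units.val_pow_eq_pow_val, ← h2, Units.val_one]
  have h4 := orderOf_dvd_of_pow_eq_one h3
  rw [ho] at h4
  have h5 := third_pos hπ hp3
  have h6 := Nat.le_of_dvd h5 h4
  omega

theorem chi_pow_three (hπ : nr π = p) (hp3 : p ≠ 3) : chi hπ hp3 ^ 3 = 1 := by
  refine MulChar.ext fun t => ?_
  rw [MulChar.pow_apply_coe, chi_cube hπ hp3 t.ne_zero, MulChar.one_apply_coe]

theorem chi_sq_ne_one (hπ : nr π = p) (hp3 : p ≠ 3) : chi hπ hp3 * chi hπ hp3 ≠ 1 := by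
  intro h
  apply chi_ne_one hπ hp3
  have := chi_pow_three hπ hp3
  rwa [pow_succ, pow_two, h, one_mul] at this

theorem chi_sq (hπ : nr π = p) (hp3 : p ≠ 3) : chi hπ hp3 * chi hπ hp3 = (chi hπ hp3)⁻¹ := by
  rw [eq_inv_iff_mul_eq_one]
  have := chi_pow_three hπ hp3
  rwa [pow_succ, pow_two] at this

theorem orderOf_chi (hπ : nr π = p) (hp3 : p ≠ 3) : orderOf (chi hπ hp3) = 3 :=
  orderOf_eq_prime (chi_pow_three hπ hp3) (chi_ne_one hπ hp3)

theorem chi_inv (hπ : nr π = p) (hp3 : p ≠ 3) :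
    (chi hπ hp3)⁻¹ = (chi hπ hp3).ringHomComp (starRingEnd Ei) := by
  refine MulChar.ext fun t => ?_
  rw [MulChar.ringHomComp_apply]
  have h1 : chi hπ hp3 (t : ZMod p) * (chi hπ hp3)⁻¹ (t : ZMod p) = 1 := by
    rw [← MulChar.mul_apply, mul_inv_cancel, MulChar.one_apply_coe]
  have h2 := (star_cube (chi_cube hπ hp3 t.ne_zero)).1
  have h3 : (starRingEnd Ei) (chi hπ hp3 (t : ZMod p)) = star (chi hπ hp3 (t : ZMod p)) := rfl
  rw [h3]
  calc (chi hπ hp3)⁻¹ (t : ZMod p) =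
        (chi hπ hp3 (t : ZMod p) * star (chi hπ hp3 (t : ZMod p))) * (chi hπ hp3)⁻¹ (t : ZMod p) := by
        rw [h2, one_mul]
    _ = star (chi hπ hp3 (t : ZMod p)) * (chi hπ hp3 (t : ZMod p) * (chi hπ hp3)⁻¹ (t : ZMod p)) := by
        ring
    _ = _ := by rw [h1, mul_one]

/-- the Jacobi sum -/
noncomputable def Jc (hπ : nr π = p) (hp3 : p ≠ 3) : Ei := jacobiSum (chi hπ hp3) (chi hπ hp3)

theorem comp_ne_one {k : Type*} [CommRing k] (hπ : nr π = p) (hp3 : p ≠ 3) (r : Ei →+* k)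
    (hr : ∀ u v : Ei, u ^ 3 = 1 → v ^ 3 = 1 → r u = r v → u = v) :
    (chi hπ hp3).ringHomComp r ≠ 1 := by
  intro h
  apply chi_ne_one hπ hp3
  refine MulChar.ext fun t => ?_
  apply hr _ _ (chi_cube hπ hp3 t.ne_zero) (by rw [MulChar.one_apply_coe, one_pow])
  rw [← MulChar.ringHomComp_apply, h, MulChar.one_apply_coe, MulChar.one_apply_coe, map_one]

theorem Jc_mul_star (hπ : nr π = p) (hp3 : p ≠ 3) : Jc hπ hp3 * star (Jc hπ hp3) = (p : Ei) := by
  apply toC_inj
  rw [map_mul]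
  have h1 : star (Jc hπ hp3) = jacobiSum (chi hπ hp3)⁻¹ (chi hπ hp3)⁻¹ := by
    rw [chi_inv, jacobiSum_ringHomComp]
    rfl
  have hne : (chi hπ hp3).ringHomComp toC ≠ 1 :=
    comp_ne_one hπ hp3 toC (fun u v _ _ h => toC_inj h)
  have hsq : (chi hπ hp3).ringHomComp toC * (chi hπ hp3).ringHomComp toC ≠ 1 := by
    rw [← MulChar.ringHomComp_mul]
    intro h
    apply chi_sq_ne_one hπ hp3
    refine MulChar.ext fun t => ?_
    apply toC_inj
    rw [← MulChar.ringHomComp_apply, h, MulChar.one_apply_coe, MulChar.one_apply_coe, map_one]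
  have hinv : ((chi hπ hp3)⁻¹).ringHomComp toC = ((chi hπ hp3).ringHomComp toC)⁻¹ := by
    rw [eq_inv_iff_mul_eq_one, ← MulChar.ringHomComp_mul, inv_mul_cancel]
    exact MulChar.ringHomComp_one _
  have h2 := jacobiSum_mul_jacobiSum_inv (F := ZMod p) (F' := ℂ)
    (by rw [ZMod.ringChar_zmod_n, ringChar.eq_zero]; exact hp.out.ne_zero.symm) hne hne hsq
  rw [h1, Jc, ← jacobiSum_ringHomComp, ← jacobiSum_ringHomComp, hinv, h2, ZMod.card, map_natCast]

theorem Jc_nr (hπ : nr π = p) (hp3 : p ≠ 3) : nr (Jc hπ hp3) = p := by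
  have h := Jc_mul_star hπ hp3
  rw [mul_star] at h
  exact_mod_cast h

end

end Pool.Agent.Y692.QS
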