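import Pool.Agent.Y692.QS.Rec
import Pool.Agent.Y691.QT.ApTw

/-!
Project QT, task N4: the number of points of `y² = x³ + B` modulo `p ≡ 1 mod 3`.
-/

set_option autoImplicit false

open Complex

namespace Pool.Agent.Y692.QS

open Pool.Agent.Y19.QT

section

variable {p : ℕ} [hp : Fact p.Prime] {π : Ei}

theorem cube_of_chi (hπ : nr π = p) (hp3 : p ≠ 3) {y : ZMod p} (hy : y ≠ 0)
    (h : chi hπ hp3 y = 1) : ∃ x : ZMod p, x ^ 3 = y := by
  have hcyc : IsCyclic (ZMod p)ˣ := inferInstance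
  obtain ⟨g, hg⟩ := hcyc.exists_generator
  have hg1 : chi hπ hp3 (g : ZMod p) ≠ 1 := by
    intro h1
    apply chi_ne_one hπ hp3
    refine MulChar.ext fun t => ?_
    obtain ⟨k, hk⟩ := Subgroup.mem_zpowers_iff.1 (hg t)
    obtain ⟨n, hn⟩ := (mem_powers_iff_mem_zpowers.2 (hg t))
    have hn' : g ^ n = t := hn
    rw [MulChar.one_apply_coe, ← hn', Units.val_pow_eq_pow_val, map_pow, h1, one_pow]
  have hg3 := chi_cube hπ hp3 g.ne_zero
  obtain ⟨n, hn⟩ := (mem_powers_iff_mem_zpowers.2 (hg (Units.mk0 y hy)))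
  have hn' : g ^ n = Units.mk0 y hy := hn
  have hyn : (g : ZMod p) ^ n = y := by
    rw [← Units.val_pow_eq_pow_val, hn', Units.val_mk0]
  rw [← hyn, map_pow] at h
  have h3 : n % 3 = 0 := by
    have h4 : n = 3 * (n / 3) + n % 3 := (Nat.div_add_mod n 3).symm
    have h5 : chi hπ hp3 (g : ZMod p) ^ (n % 3) = 1 := by
      rw [h4, pow_add, pow_mul, hg3, one_pow, one_mul] at h
      exact h
    have h6 : n % 3 < 3 := Nat.mod_lt _ (by norm_num)
    interval_cases hh : n % 3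
    · rfl
    · rw [pow_one] at h5
      exact absurd h5 hg1
    · exfalso
      apply hg1
      calc chi hπ hp3 (g : ZMod p) = chi hπ hp3 (g : ZMod p) * chi hπ hp3 (g : ZMod p) ^ 2 := by
            rw [h5, mul_one]
        _ = chi hπ hp3 (g : ZMod p) ^ 3 := by ring
        _ = 1 := hg3
  obtain ⟨j, hj⟩ := Nat.dvd_of_mod_eq_zero h3
  refine ⟨(g : ZMod p) ^ j, ?_⟩
  rw [← hyn, hj, ← pow_mul]
  congr 1
  ring

theorem card_cube (hπ : nr π = p) (hp3 : p ≠ 3) (y : ZMod p) :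
    (((Finset.univ.filter (fun x : ZMod p => x ^ 3 = y)).card : ℕ) : Ei) =
      1 + chi hπ hp3 y + chi hπ hp3 y ^ 2 := by
  classical
  by_cases hy : y = 0
  · subst hy
    have : Finset.univ.filter (fun x : ZMod p => x ^ 3 = 0) = {0} := by
      ext x
      simp
    rw [this, Finset.card_singleton, MulChar.map_zero]
    norm_num
  by_cases h : chi hπ hp3 y = 1
  · obtain ⟨x0, hx0⟩ := cube_of_chi hπ hp3 hy h
    have hx00 : x0 ≠ 0 := by
      rintro rfl
      apply hy
      rw [← hx0]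
      ring
    have hz := zt_sq hπ
    have hz3 := z_cube hz
    obtain ⟨n1, n2, n3⟩ := z_ne hz (three_ne hp3)
    have hset : Finset.univ.filter (fun x : ZMod p => x ^ 3 = y) =
        {x0, zt p π * x0, zt p π ^ 2 * x0} := by
      ext x
      simp only [Finset.mem_filter, Finset.mem_univ, true_and, Finset.mem_insert,
        Finset.mem_singleton]
      constructor
      · intro hx
        have h1 : (x * x0⁻¹) ^ 3 = 1 := by
          rw [mul_pow, hx, inv_pow, hx0, mul_inv_cancel₀ hy]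
        rcases root_cases hz h1 with h2 | h2 | h2
        · left
          rw [← mul_inv_eq_one₀ hx00]
          exact h2
        · right; left
          rw [← h2, mul_assoc, inv_mul_cancel₀ hx00, mul_one]
        · right; right
          rw [← h2, mul_assoc, inv_mul_cancel₀ hx00, mul_one]
      · rintro (rfl | rfl | rfl)
        · exact hx0
        · rw [mul_pow, hz3, hx0, one_mul]
        · rw [mul_pow, ← pow_mul, mul_comm 2 3, pow_mul, hz3, hx0, one_pow, one_mul]
    rw [hset, h, Finset.card_insert_of_notMem, Finset.card_insert_of_notMem,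
      Finset.card_singleton]
    · norm_num
    · rw [Finset.mem_singleton]
      intro h2
      exact n3 (mul_right_cancel₀ hx00 h2).symm
    · rw [Finset.mem_insert, Finset.mem_singleton, not_or]
      constructor
      · intro h2
        apply n1
        apply mul_right_cancel₀ hx00
        rw [← h2, one_mul]
      · intro h2
        apply n2
        apply mul_right_cancel₀ hx00
        rw [← h2, one_mul]
  · have hset : Finset.univ.filter (fun x : ZMod p => x ^ 3 = y) = ∅ := by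
      rw [Finset.filter_eq_empty_iff]
      intro x _ hx
      apply h
      rw [← hx]
      apply chi_of_cube
      rintro rfl
      apply hy
      rw [← hx]
      ring
    rw [hset, Finset.card_empty]
    rcases cube_cases (chi_cube hπ hp3 hy) with h1 | h1 | h1
    · exact absurd h1 h
    · rw [h1]; decide
    · rw [h1]; decide

theorem sum_cube (hπ : nr π = p) (hp3 : p ≠ 3) (F : ZMod p → Ei) :
    ∑ x : ZMod p, F (x ^ 3) = ∑ y : ZMod p, (1 + chi hπ hp3 y + chi hπ hp3 y ^ 2) * F y := by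
  classical
  rw [← Finset.sum_fiberwise Finset.univ (fun x : ZMod p => x ^ 3)]
  refine Finset.sum_congr rfl fun y _ => ?_
  rw [← card_cube hπ hp3 y, Finset.sum_congr rfl (g := fun _ => F y), Finset.sum_const,
    nsmul_eq_mul]
  intro x hx
  rw [(Finset.mem_filter.1 hx).2]

/-- the quadratic character with values in the Eisenstein integers -/
noncomputable def rho (p : ℕ) [Fact p.Prime] (x : ZMod p) : Ei :=
  ((quadraticChar (ZMod p) x : ℤ) : Ei)

theorem rho_mul (x y : ZMod p) : rho p (x * y) = rho p x * rho p y := by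
  unfold rho
  rw [map_mul]
  push_cast
  rfl

theorem rho_sq {x : ZMod p} (hx : x ≠ 0) : rho p x * rho p x = 1 := by
  unfold rho
  rw [← Int.cast_mul, ← pow_two, quadraticChar_sq_one hx, Int.cast_one]

theorem star_rho (x : ZMod p) : star (rho p x) = rho p x := by
  unfold rho
  simp

theorem sum_rho (hp2 : p ≠ 2) : ∑ x : ZMod p, rho p x = 0 := by
  unfold rho
  rw [← Int.cast_sum, quadraticChar_sum_zero (by rwa [ZMod.ringChar_zmod_n]), Int.cast_zero]

theorem sum_sq (hp2 : p ≠ 2) (F : ZMod p → Ei) :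
    ∑ x : ZMod p, F (x ^ 2) = ∑ y : ZMod p, (rho p y + 1) * F y := by
  classical
  rw [← Finset.sum_fiberwise Finset.univ (fun x : ZMod p => x ^ 2)]
  refine Finset.sum_congr rfl fun y _ => ?_
  have h := quadraticChar_card_sqrts (F := ZMod p) (by rwa [ZMod.ringChar_zmod_n]) y
  have h2 : ((({x : ZMod p | x ^ 2 = y}.toFinset.card : ℕ) : ℤ) : Ei) = rho p y + 1 := by
    rw [h]
    unfold rho
    push_cast
    rfl
  rw [← h2, Finset.sum_congr rfl (g := fun _ => F y), Finset.sum_const, nsmul_eq_mul]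
  · congr 1
    push_cast
    congr 2
    ext x
    simp
  · intro x hx
    rw [(Finset.mem_filter.1 hx).2]

theorem sum_chi (hπ : nr π = p) (hp3 : p ≠ 3) : ∑ x : ZMod p, chi hπ hp3 x = 0 :=
  MulChar.sum_eq_zero_of_ne_one (chi_ne_one hπ hp3)

theorem J_rho (hπ : nr π = p) (hp3 : p ≠ 3) (hp2 : p ≠ 2) {B : ZMod p} (hB : B ≠ 0) :
    ∑ y : ZMod p, chi hπ hp3 y * rho p (y + B) = chi hπ hp3 (4 * B) * rho p B * Jc hπ hp3 := by
  have h2 : (2 : ZMod p) ≠ 0 := by
    intro h
    have h1 : ((2 : ℕ) : ZMod p) = 0 := by exact_mod_cast h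
    rw [ZMod.natCast_eq_zero_iff] at h1
    exact hp2 ((Nat.prime_dvd_prime_iff_eq hp.out Nat.prime_two).1 h1)
  have h4 : (4 : ZMod p) ≠ 0 := by
    have : (4 : ZMod p) = 2 * 2 := by norm_num
    rw [this]
    exact mul_ne_zero h2 h2
  -- the Jacobi sum as a sum over squares
  have e1 : Jc hπ hp3 = ∑ u : ZMod p, chi hπ hp3 ((1 - u ^ 2) * 4⁻¹) := by
    unfold Jc jacobiSum
    rw [← Equiv.sum_comp ((Equiv.addRight (1 : ZMod p)).trans (Equiv.mulRight₀ (2⁻¹ : ZMod p)
      (inv_ne_zero h2)))]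
    refine Finset.sum_congr rfl fun u _ => ?_
    show chi hπ hp3 ((u + 1) * 2⁻¹) * chi hπ hp3 (1 - (u + 1) * 2⁻¹) = _
    rw [← map_mul]
    congr 1
    field_simp
    ring
  have e2 : ∑ u : ZMod p, chi hπ hp3 ((1 - u ^ 2) * 4⁻¹) =
      ∑ v : ZMod p, (rho p v + 1) * chi hπ hp3 ((1 - v) * 4⁻¹) :=
    sum_sq hp2 (fun v => chi hπ hp3 ((1 - v) * 4⁻¹))
  have e3 : ∑ v : ZMod p, chi hπ hp3 ((1 - v) * 4⁻¹) = 0 := by
    rw [← sum_chi hπ hp3]
    refine (Equiv.sum_comp ((Equiv.subLeft (1 : ZMod p)).trans (Equiv.mulRight₀ (4⁻¹ : ZMod p)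
      (inv_ne_zero h4))) (fun x => chi hπ hp3 x)).symm ▸ rfl
  have e4 : ∑ v : ZMod p, (rho p v + 1) * chi hπ hp3 ((1 - v) * 4⁻¹) =
      ∑ v : ZMod p, rho p v * chi hπ hp3 ((1 - v) * 4⁻¹) := by
    have : ∀ v : ZMod p, (rho p v + 1) * chi hπ hp3 ((1 - v) * 4⁻¹) =
        rho p v * chi hπ hp3 ((1 - v) * 4⁻¹) + chi hπ hp3 ((1 - v) * 4⁻¹) := fun v => by ring
    rw [Finset.sum_congr rfl fun v _ => this v, Finset.sum_add_distrib, e3, add_zero]
  have e5 : ∑ v : ZMod p, rho p v * chi hπ hp3 ((1 - v) * 4⁻¹) =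
      ∑ y : ZMod p, rho p ((y + B) * B⁻¹) * chi hπ hp3 ((1 - (y + B) * B⁻¹) * 4⁻¹) :=
    (Equiv.sum_comp ((Equiv.addRight (B : ZMod p)).trans (Equiv.mulRight₀ (B⁻¹ : ZMod p)
      (inv_ne_zero hB))) (fun v => rho p v * chi hπ hp3 ((1 - v) * 4⁻¹))).symm
  rw [e1, e2, e4, e5, Finset.mul_sum]
  refine Finset.sum_congr rfl fun y _ => ?_
  have e6 : (1 - (y + B) * B⁻¹) * 4⁻¹ = -1 * (y * (4 * B)⁻¹) := by
    field_simp
    ring
  have e9 : chi hπ hp3 (-1 * (y * (4 * B)⁻¹)) = chi hπ hp3 y * chi hπ hp3 (4 * B)⁻¹ := by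
    rw [map_mul (chi hπ hp3) (-1), chi_neg_one, one_mul, map_mul]
  rw [e6, e9, rho_mul]
  have h4B : (4 * B) ≠ 0 := mul_ne_zero h4 hB
  have e7 : chi hπ hp3 (4 * B) * chi hπ hp3 (4 * B)⁻¹ = 1 := by
    rw [← map_mul, mul_inv_cancel₀ h4B, map_one]
  have e8 : rho p B * rho p B⁻¹ = 1 := by
    rw [← rho_mul, mul_inv_cancel₀ hB]
    unfold rho
    rw [map_one, Int.cast_one]
  calc chi hπ hp3 y * rho p (y + B) =
      (chi hπ hp3 (4 * B) * chi hπ hp3 (4 * B)⁻¹) * (rho p B * rho p B⁻¹) *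
        (chi hπ hp3 y * rho p (y + B)) := by rw [e7, e8]; ring
    _ = _ := by ring

/-- the number of points -/
theorem ap_eq (hπ : nr π = p) (hp3 : p ≠ 3) (hp2 : p ≠ 2) {B : ℤ} (hB : ¬ (p : ℤ) ∣ B) :
    ((ap 0 B p : ℤ) : Ei) =
      rho p (B : ZMod p) * chi hπ hp3 ((4 * B : ℤ) : ZMod p) * ns π +
        star (rho p (B : ZMod p) * chi hπ hp3 ((4 * B : ℤ) : ZMod p) * ns π) := by
  have hB0 : (B : ZMod p) ≠ 0 := by
    rwa [Ne, ZMod.intCast_zmod_eq_zero_iff_dvd]
  have h := Pool.Agent.Y691.QT.card_eq p hp2 0 (B : ZMod p)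
  have h1 : ((ap 0 B p : ℤ) : Ei) = -∑ x : ZMod p, rho p (x ^ 3 + B) := by
    unfold ap rho
    rw [← Int.cast_sum, ← Int.cast_neg]
    congr 1
    rw [Int.cast_zero, h]
    simp only [zero_mul, add_zero]
    ring
  have h2 : ∑ x : ZMod p, rho p (x ^ 3 + B) =
      ∑ y : ZMod p, (1 + chi hπ hp3 y + chi hπ hp3 y ^ 2) * rho p (y + B) :=
    sum_cube hπ hp3 (fun y => rho p (y + B))
  have h3 : ∑ y : ZMod p, rho p (y + B) = 0 := by
    rw [← sum_rho hp2]
    exact Equiv.sum_comp (Equiv.addRight (B : ZMod p)) (fun x => rho p x)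
  have h4 : ∀ y : ZMod p, chi hπ hp3 y ^ 2 = star (chi hπ hp3 y) := by
    intro y
    by_cases hy : y = 0
    · rw [hy, MulChar.map_zero]; decide
    · rcases cube_cases (chi_cube hπ hp3 hy) with h | h | h <;> rw [h] <;> decide
  have h5 : ∑ y : ZMod p, (1 + chi hπ hp3 y + chi hπ hp3 y ^ 2) * rho p (y + B) =
      ∑ y : ZMod p, chi hπ hp3 y * rho p (y + B) +
        star (∑ y : ZMod p, chi hπ hp3 y * rho p (y + B)) := by
    rw [star_sum, ← Finset.sum_add_distrib, ← sub_eq_zero, ← Finset.sum_sub_distrib, ← h3]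
    refine Finset.sum_congr rfl fun y _ => ?_
    rw [h4, star_mul, star_rho]
    ring
  rw [h1, h2, h5, J_rho hπ hp3 hp2 hB0, ns_pi hπ hp3]
  push_cast
  simp only [star_mul, star_neg, star_rho]
  ring

end

/-- the trace at primes `2 mod 3` -/
theorem ap_two (B : ℤ) {p : ℕ} (hp : p.Prime) (hp2 : p ≠ 2) (h3 : p % 3 = 2) : ap 0 B p = 0 := by
  have : Fact p.Prime := ⟨hp⟩
  have h := Pool.Agent.Y691.QT.card_eq p hp2 0 (B : ZMod p)
  have hinj : Function.Injective (fun x : ZMod p => x ^ 3) := by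
    -- `x ^ (2p - 1) = x` and `3 ∣ 2 p - 1`
    have hk : ∀ x : ZMod p, (x ^ 3) ^ ((2 * p - 1) / 3) = x := by
      intro x
      rw [← pow_mul]
      have h1 : 3 * ((2 * p - 1) / 3) = p + (p - 1) := by
        have := hp.two_le
        omega
      rw [h1, pow_add, ZMod.pow_card]
      by_cases hx : x = 0
      · rw [hx, zero_mul]
      · rw [ZMod.pow_card_sub_one_eq_one hx, mul_one]
    intro x y hxy
    have hxy' : x ^ 3 = y ^ 3 := hxy
    rw [← hk x, ← hk y, hxy']
  have hbij := Finite.injective_iff_bijective.1 hinj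
  have hs : ∑ x : ZMod p, quadraticChar (ZMod p) (x ^ 3 + 0 * x + (B : ZMod p)) = 0 := by
    have e1 : ∑ x : ZMod p, quadraticChar (ZMod p) (x ^ 3 + 0 * x + (B : ZMod p)) =
        ∑ y : ZMod p, quadraticChar (ZMod p) (y + (B : ZMod p)) := by
      rw [← (Equiv.ofBijective _ hbij).sum_comp (fun y => quadraticChar (ZMod p) (y + (B : ZMod p)))]
      refine Finset.sum_congr rfl fun x _ => ?_
      show _ = quadraticChar (ZMod p) (x ^ 3 + (B : ZMod p))
      rw [zero_mul, add_zero]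
    rw [e1, ← quadraticChar_sum_zero (F := ZMod p) (by rwa [ZMod.ringChar_zmod_n])]
    exact Equiv.sum_comp (Equiv.addRight (B : ZMod p)) (fun x => quadraticChar (ZMod p) x)
  unfold ap
  rw [hs, add_zero] at h
  rw [Int.cast_zero]
  linarith

end Pool.Agent.Y692.QS
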