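import Pool.Agent.Y692.QS.Chi

/-!
Project QT, task N4: the cubic Jacobi sum modulo nine.
-/

set_option autoImplicit false

open Complex

namespace Pool.Agent.Y692.QS

/-! ### free actions of the cyclic group of order three -/

theorem cube_sub_one {u : Ei} (h : u ^ 3 = 1) : (1 - w) ∣ u - 1 := by
  rcases cube_cases h with rfl | rfl | rfl
  · rw [sub_self]
    exact dvd_zero _
  · exact ⟨-1, by ring⟩
  · exact ⟨-1 - w, by ring⟩

theorem lam_sq : (1 - w) * (1 - w) = 3 * (-w) := by decide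

theorem nine_dvd {u v : Ei} (hu : u ^ 3 = 1) (hv : v ^ 3 = 1) : (9 : Ei) ∣ 3 * ((u - 1) * (v - 1)) := by
  obtain ⟨a, ha⟩ := cube_sub_one hu
  obtain ⟨b, hb⟩ := cube_sub_one hv
  refine ⟨(-w) * (a * b), ?_⟩
  rw [ha, hb]
  calc (3 : Ei) * ((1 - w) * a * ((1 - w) * b)) = 3 * (((1 - w) * (1 - w)) * (a * b)) := by ring
    _ = _ := by rw [lam_sq]; ring

theorem prod_cube {α : Type*} (S : Finset α) (G : α → Ei) (hG : ∀ s ∈ S, G s ^ 3 = 1) :
    (∏ s ∈ S, G s) ^ 3 = 1 := by
  rw [← Finset.prod_pow]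
  exact Finset.prod_eq_one hG

theorem orbit {α : Type*} [DecidableEq α] (σ : α → α) (G : α → Ei) :
    ∀ S : Finset α, (∀ s ∈ S, σ s ∈ S) → (∀ s ∈ S, σ (σ (σ s)) = s) → (∀ s ∈ S, σ s ≠ s) →
    (∀ s ∈ S, G s ^ 3 = 1) →
    (9 : Ei) ∣ ∑ s ∈ S, (G s * G (σ s) * G (σ (σ s)) - 1) - 3 * (∏ s ∈ S, G s - 1) := by
  intro S
  induction S using Finset.strongInduction with
  | H S ih =>
    intro h1 h2 h3 h4
    rcases S.eq_empty_or_nonempty with rfl | ⟨s, hs⟩
    · simp
    · have m1 : σ s ∈ S := h1 s hs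
      have m2 : σ (σ s) ∈ S := h1 _ m1
      have e3 : σ (σ (σ s)) = s := h2 s hs
      have n1 : σ s ≠ s := h3 s hs
      have n2 : σ (σ s) ≠ σ s := h3 _ m1
      have n3 : σ (σ s) ≠ s := by
        intro h
        have := congrArg σ h
        rw [e3] at this
        exact n1 this.symm
      set O : Finset α := {s, σ s, σ (σ s)} with hO
      have hOS : O ⊆ S := by
        intro t ht
        rw [hO, Finset.mem_insert, Finset.mem_insert, Finset.mem_singleton] at ht
        rcases ht with rfl | rfl | rfl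
        · exact hs
        · exact m1
        · exact m2
      have hlt : S \ O ⊂ S := by
        refine Finset.sdiff_ssubset hOS ⟨s, ?_⟩
        rw [hO]
        exact Finset.mem_insert_self _ _
      have hcl : ∀ t ∈ S \ O, σ t ∈ S \ O := by
        intro t ht
        rw [Finset.mem_sdiff] at ht ⊢
        refine ⟨h1 t ht.1, fun h => ht.2 ?_⟩
        have ht3 := h2 t ht.1
        rw [hO, Finset.mem_insert, Finset.mem_insert, Finset.mem_singleton] at h ⊢
        rcases h with h | h | h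
        · right; right
          rw [← ht3, h]
        · left
          rw [← ht3, h, e3]
        · right; left
          rw [← ht3, h, e3]
      have key := ih (S \ O) hlt hcl (fun t ht => h2 t (Finset.mem_sdiff.1 ht).1)
        (fun t ht => h3 t (Finset.mem_sdiff.1 ht).1) (fun t ht => h4 t (Finset.mem_sdiff.1 ht).1)
      have hsum : ∀ f : α → Ei, ∑ t ∈ O, f t = f s + f (σ s) + f (σ (σ s)) := by
        intro f
        rw [hO, Finset.sum_insert, Finset.sum_insert, Finset.sum_singleton]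
        · ring
        · rw [Finset.mem_singleton]; exact n2.symm
        · rw [Finset.mem_insert, Finset.mem_singleton, not_or]
          exact ⟨n1.symm, n3.symm⟩
      have hprod : ∏ t ∈ O, G t = G s * G (σ s) * G (σ (σ s)) := by
        rw [hO, Finset.prod_insert, Finset.prod_insert, Finset.prod_singleton]
        · ring
        · rw [Finset.mem_singleton]; exact n2.symm
        · rw [Finset.mem_insert, Finset.mem_singleton, not_or]
          exact ⟨n1.symm, n3.symm⟩
      rw [← Finset.sum_sdiff hOS, ← Finset.prod_sdiff hOS, hsum, hprod, e3]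
      set u : Ei := G s * G (σ s) * G (σ (σ s)) with hu
      have hu3 : u ^ 3 = 1 := by
        rw [hu, mul_pow, mul_pow, h4 s hs, h4 _ m1, h4 _ m2]
        ring
      have hP3 : (∏ t ∈ S \ O, G t) ^ 3 = 1 :=
        prod_cube _ _ fun t ht => h4 t (Finset.mem_sdiff.1 ht).1
      have hk := nine_dvd hu3 hP3
      have : ∑ t ∈ S \ O, (G t * G (σ t) * G (σ (σ t)) - 1) +
          (u - 1 + (G (σ s) * G (σ (σ s)) * G s - 1) + (G (σ (σ s)) * G s * G (σ s) - 1)) -
          3 * ((∏ t ∈ S \ O, G t) * u - 1) =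
          (∑ t ∈ S \ O, (G t * G (σ t) * G (σ (σ t)) - 1) - 3 * (∏ t ∈ S \ O, G t - 1)) -
          3 * ((u - 1) * ((∏ t ∈ S \ O, G t) - 1)) := by
        rw [hu]; ring
      rw [this]
      exact dvd_sub key hk

section

variable {p : ℕ} [hp : Fact p.Prime] {π : Ei}

/-! ### the Jacobi sum is divisible by `π` -/

theorem red_J (hπ : nr π = p) (hp3 : p ≠ 3) : red hπ (Jc hπ hp3) = 0 := by
  set n := (p - 1) / 3 with hn
  have h3n : n * 3 = p - 1 := Nat.div_mul_cancel (p_mod hπ hp3)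
  have hn0 : 0 < n := third_pos hπ hp3
  unfold Jc jacobiSum
  rw [map_sum]
  have e1 : ∀ x : ZMod p, red hπ (chi hπ hp3 x * chi hπ hp3 (1 - x)) =
      ∑ m ∈ Finset.range (n + 1), ((-1) ^ m * (n.choose m : ZMod p)) * x ^ (n + m) := by
    intro x
    rw [map_mul, chi_red, chi_red, ← hn]
    have : (1 - x) ^ n = (-x + 1) ^ n := by ring
    rw [this, add_pow, Finset.mul_sum]
    refine Finset.sum_congr rfl fun m _ => ?_
    rw [one_pow, neg_pow, pow_add]
    ring
  rw [Finset.sum_congr rfl fun x _ => e1 x, Finset.sum_comm]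
  refine Finset.sum_eq_zero fun m hm => ?_
  rw [← Finset.mul_sum, FiniteField.sum_pow_lt_card_sub_one, mul_zero]
  rw [ZMod.card]
  have := Finset.mem_range.1 hm
  omega

theorem J_assoc (hπ : nr π = p) (hp3 : p ≠ 3) : ∃ u : Ei, IsUnit u ∧ Jc hπ hp3 = u * π := by
  obtain ⟨u, hu⟩ := (red_zero hπ).1 (red_J hπ hp3)
  refine ⟨u, ?_, by rw [hu, mul_comm]⟩
  rw [isUnit_iff]
  have h1 := Jc_nr hπ hp3
  rw [hu, nr_mul, hπ] at h1
  have h2 : (p : ℤ) ≠ 0 := by exact_mod_cast hp.out.ne_zero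
  exact mul_left_cancel₀ h2 (by rw [h1, mul_one])

/-! ### the triple sum -/

theorem sum_shift (hπ : nr π = p) (hp3 : p ≠ 3) (s : ZMod p) :
    ∑ y : ZMod p, chi hπ hp3 y * chi hπ hp3 (s - y) =
      (chi hπ hp3 * chi hπ hp3) s * Jc hπ hp3 := by
  by_cases hs : s = 0
  · subst hs
    rw [MulChar.map_zero, zero_mul]
    have h1 : ∀ y : ZMod p, chi hπ hp3 y * chi hπ hp3 (0 - y) = (chi hπ hp3 * chi hπ hp3) y := by
      intro y
      rw [MulChar.mul_apply]
      have : (0 : ZMod p) - y = -1 * y := by ring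
      rw [this, map_mul, chi_neg_one, one_mul]
    rw [Finset.sum_congr rfl fun y _ => h1 y]
    exact MulChar.sum_eq_zero_of_ne_one (chi_sq_ne_one hπ hp3)
  · rw [← Equiv.sum_comp (Equiv.mulLeft₀ s hs)]
    unfold Jc jacobiSum
    rw [Finset.mul_sum]
    refine Finset.sum_congr rfl fun y _ => ?_
    show chi hπ hp3 (s * y) * chi hπ hp3 (s - s * y) = _
    have : s - s * y = s * (1 - y) := by ring
    rw [this, map_mul, map_mul, MulChar.mul_apply]
    ring

theorem triple (hπ : nr π = p) (hp3 : p ≠ 3) :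
    ∑ x : ZMod p, ∑ y : ZMod p, chi hπ hp3 x * chi hπ hp3 y * chi hπ hp3 (1 - x - y) =
      -Jc hπ hp3 := by
  have h1 : ∀ x : ZMod p, ∑ y : ZMod p, chi hπ hp3 x * chi hπ hp3 y * chi hπ hp3 (1 - x - y) =
      Jc hπ hp3 * (chi hπ hp3 x * (chi hπ hp3 * chi hπ hp3) (1 - x)) := by
    intro x
    have := sum_shift hπ hp3 (1 - x)
    calc ∑ y : ZMod p, chi hπ hp3 x * chi hπ hp3 y * chi hπ hp3 (1 - x - y) =
        chi hπ hp3 x * ∑ y : ZMod p, chi hπ hp3 y * chi hπ hp3 (1 - x - y) := by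
          rw [Finset.mul_sum]
          exact Finset.sum_congr rfl fun y _ => by ring
      _ = _ := by rw [this]; ring
  rw [Finset.sum_congr rfl fun x _ => h1 x, ← Finset.mul_sum]
  have h2 : ∑ x : ZMod p, chi hπ hp3 x * (chi hπ hp3 * chi hπ hp3) (1 - x) =
      jacobiSum (chi hπ hp3) (chi hπ hp3)⁻¹ := by
    rw [← chi_sq]
    rfl
  rw [h2, jacobiSum_nontrivial_inv (chi_ne_one hπ hp3), chi_neg_one]
  ring

/-! ### the congruence modulo nine -/

/-- the nonzero `x` -/
def XX (p : ℕ) [Fact p.Prime] : Finset (ZMod p) := Finset.univ.filter (fun x => x ≠ 0)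

/-- the `y` with `y ≠ 0`, `1 - x - y ≠ 0` -/
def YY (p : ℕ) [Fact p.Prime] (x : ZMod p) : Finset (ZMod p) :=
  Finset.univ.filter (fun y => y ≠ 0 ∧ 1 - x - y ≠ 0)

/-- the pairs `(x, y)` with `x, y, 1 - x - y ≠ 0` -/
def PP (p : ℕ) [Fact p.Prime] : Finset (ZMod p × ZMod p) :=
  Finset.univ.filter (fun s => s.1 ≠ 0 ∧ s.2 ≠ 0 ∧ 1 - s.1 - s.2 ≠ 0)

theorem mem_PP (s : ZMod p × ZMod p) : s ∈ PP p ↔ s.1 ∈ XX p ∧ s.2 ∈ YY p s.1 := by
  simp [PP, XX, YY]

theorem card_XX : (XX p).card = p - 1 := by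
  have : XX p = Finset.univ.erase 0 := by
    ext x
    simp [XX]
  rw [this, Finset.card_erase_of_mem (Finset.mem_univ _), Finset.card_univ, ZMod.card]

theorem card_YY (x : ZMod p) : (YY p x).card = if x = 1 then p - 1 else p - 2 := by
  have h1 : YY p x = (Finset.univ.erase 0).erase (1 - x) := by
    ext y
    simp only [YY, Finset.mem_filter, Finset.mem_univ, true_and, Finset.mem_erase, and_true]
    constructor
    · rintro ⟨h1, h2⟩
      exact ⟨fun h => h2 (by rw [h]; ring), h1⟩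
    · rintro ⟨h1, h2⟩
      exact ⟨h2, fun h => h1 (by linear_combination -h)⟩
  have h0 : (Finset.univ.erase (0 : ZMod p)).card = p - 1 := by
    rw [Finset.card_erase_of_mem (Finset.mem_univ _), Finset.card_univ, ZMod.card]
  rw [h1]
  split_ifs with hx
  · rw [Finset.erase_eq_of_notMem, h0]
    rw [hx, sub_self]
    exact Finset.notMem_erase _ _
  · rw [Finset.card_erase_of_mem, h0]
    · omega
    · rw [Finset.mem_erase]
      refine ⟨fun h => hx (sub_eq_zero.1 h).symm, Finset.mem_univ _⟩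

theorem card_PP : ((PP p).card : ℤ) = 1 + (p - 1) * (p - 2) := by
  have h1 : (PP p).card = ∑ x ∈ XX p, (YY p x).card := by
    have := Finset.sum_finset_product (PP p) (XX p) (YY p) mem_PP (f := fun _ => 1)
    simpa using this
  have h2 := hp.out.two_le
  have h11 : (1 : ZMod p) ∈ XX p := by simp [XX]
  rw [h1, ← Finset.sum_erase_add _ _ h11, card_YY, if_pos rfl,
    Finset.sum_congr rfl (g := fun _ => p - 2), Finset.sum_const,
    Finset.card_erase_of_mem h11, card_XX]
  · obtain ⟨k, hk⟩ := Nat.exists_eq_add_of_le h2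
    subst hk
    have e1 : 2 + k - 1 - 1 = k := by omega
    have e2 : 2 + k - 2 = k := by omega
    have e3 : 2 + k - 1 = k + 1 := by omega
    rw [e1, e2, e3, smul_eq_mul]
    push_cast
    ring
  · intro x hx
    rw [card_YY, if_neg (Finset.mem_erase.1 hx).1]

theorem prod_XX (hπ : nr π = p) (hp3 : p ≠ 3) : ∏ x ∈ XX p, chi hπ hp3 x = 1 := by
  have hmem : ∀ x : ZMod p, x ∈ XX p ↔ x ≠ 0 := by
    intro x
    simp [XX]
  set P := ∏ x ∈ XX p, chi hπ hp3 x with hP
  have h1 : P = ∏ x ∈ XX p, chi hπ hp3 x⁻¹ := by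
    rw [hP]
    refine Finset.prod_nbij' (fun x => x⁻¹) (fun x => x⁻¹) ?_ ?_ ?_ ?_ ?_
    · intro x hx
      exact (hmem _).2 (inv_ne_zero ((hmem x).1 hx))
    · intro x hx
      exact (hmem _).2 (inv_ne_zero ((hmem x).1 hx))
    · intro x _
      exact inv_inv x
    · intro x _
      exact inv_inv x
    · intro x _
      rw [inv_inv]
  have h2 : P * P = 1 := by
    calc P * P = P * ∏ x ∈ XX p, chi hπ hp3 x⁻¹ := by rw [← h1]
      _ = ∏ x ∈ XX p, (chi hπ hp3 x * chi hπ hp3 x⁻¹) := by rw [hP, Finset.prod_mul_distrib]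
      _ = 1 := Finset.prod_eq_one fun x hx => by
        rw [← map_mul, mul_inv_cancel₀ ((hmem x).1 hx), map_one]
  have h3 : P ^ 3 = 1 := prod_cube _ _ fun x hx => chi_cube hπ hp3 ((hmem x).1 hx)
  calc P = P * (P * P) := by rw [h2, mul_one]
    _ = P ^ 3 := by ring
    _ = 1 := h3

theorem prod_PP (hπ : nr π = p) (hp3 : p ≠ 3) : ∏ s ∈ PP p, chi hπ hp3 s.1 = 1 := by
  rw [Finset.prod_finset_product (PP p) (XX p) (YY p) mem_PP]
  have h1 : ∀ x ∈ XX p, ∏ a ∈ YY p x, chi hπ hp3 (x, a).1 = chi hπ hp3 x ^ (p - 2) := by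
    intro x _
    show ∏ a ∈ YY p x, chi hπ hp3 x = _
    rw [Finset.prod_const, card_YY]
    split_ifs with hx
    · rw [hx, map_one, one_pow, one_pow]
    · rfl
  rw [Finset.prod_congr rfl h1, Finset.prod_pow, prod_XX, one_pow]

theorem J_mod_nine (hπ : nr π = p) (hp3 : p ≠ 3) :
    (9 : Ei) ∣ -Jc hπ hp3 - 1 - (((p : ℤ) - 1) * (p - 2) : ℤ) - 3 * (chi hπ hp3 3 - 1) := by
  classical
  have h3 : (3 : ZMod p) ≠ 0 := three_ne hp3
  set c : ZMod p := 3⁻¹ with hc
  have hc0 : c ≠ 0 := inv_ne_zero h3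
  have h3c : 3 * c = 1 := mul_inv_cancel₀ h3
  have hcc : 1 - c - c = c := by linear_combination -h3c
  have hcP : (c, c) ∈ PP p := by
    simp only [PP, Finset.mem_filter, Finset.mem_univ, true_and]
    exact ⟨hc0, hc0, by rw [hcc]; exact hc0⟩
  set S : Finset (ZMod p × ZMod p) := (PP p).erase (c, c) with hS
  have hmem : ∀ s : ZMod p × ZMod p, s ∈ PP p ↔ s.1 ≠ 0 ∧ s.2 ≠ 0 ∧ 1 - s.1 - s.2 ≠ 0 := by
    intro s
    simp [PP]
  have key := orbit (fun s : ZMod p × ZMod p => (s.2, 1 - s.1 - s.2))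
    (fun s => chi hπ hp3 s.1) S ?_ ?_ ?_ ?_
  · -- the sum
    have e1 : ∑ s ∈ S, (chi hπ hp3 s.1 * chi hπ hp3 s.2 * chi hπ hp3 (1 - s.1 - s.2) - 1) =
        -Jc hπ hp3 - 1 - (((p : ℤ) - 1) * (p - 2) : ℤ) := by
      rw [Finset.sum_sub_distrib, Finset.sum_const]
      have e2 : S.card = (PP p).card - 1 := by rw [hS, Finset.card_erase_of_mem hcP]
      have e3 : ((S.card : ℕ) : ℤ) = (p - 1) * (p - 2) := by
        have h4 := card_PP (p := p)
        have h5 : 0 < (PP p).card := Finset.card_pos.2 ⟨_, hcP⟩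
        omega
      have e4 : ∑ s ∈ PP p, chi hπ hp3 s.1 * chi hπ hp3 s.2 * chi hπ hp3 (1 - s.1 - s.2) =
          -Jc hπ hp3 := by
        rw [← triple hπ hp3, ← Finset.sum_product', Finset.univ_product_univ]
        refine Finset.sum_subset (Finset.subset_univ _) fun s _ hs => ?_
        rw [hmem] at hs
        by_cases h1 : s.1 = 0
        · rw [h1, MulChar.map_zero]; ring
        by_cases h2 : s.2 = 0
        · rw [h2, MulChar.map_zero]; ring
        by_cases h3 : 1 - s.1 - s.2 = 0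
        · rw [h3, MulChar.map_zero]; ring
        exact absurd ⟨h1, h2, h3⟩ hs
      have e5 : ∑ s ∈ S, chi hπ hp3 s.1 * chi hπ hp3 s.2 * chi hπ hp3 (1 - s.1 - s.2) =
          -Jc hπ hp3 - 1 := by
        rw [← e4, ← Finset.sum_erase_add _ _ hcP]
        have : chi hπ hp3 (c, c).1 * chi hπ hp3 (c, c).2 * chi hπ hp3 (1 - (c, c).1 - (c, c).2) = 1 := by
          show chi hπ hp3 c * chi hπ hp3 c * chi hπ hp3 (1 - c - c) = 1
          rw [hcc]
          have := chi_cube hπ hp3 hc0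
          rw [pow_succ, pow_two] at this
          exact this
        rw [this]
        ring
      rw [e5, ← e3]
      simp
    have e6 : ∏ s ∈ S, chi hπ hp3 s.1 = chi hπ hp3 3 := by
      have e7 := prod_PP hπ hp3
      rw [← Finset.prod_erase_mul _ _ hcP] at e7
      have e8 : chi hπ hp3 c * chi hπ hp3 3 = 1 := by
        rw [← map_mul, mul_comm, h3c, map_one]
      calc ∏ s ∈ S, chi hπ hp3 s.1 = (∏ s ∈ S, chi hπ hp3 s.1) * (chi hπ hp3 c * chi hπ hp3 3) := by
            rw [e8, mul_one]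
        _ = (∏ s ∈ (PP p).erase (c, c), chi hπ hp3 s.1) * chi hπ hp3 (c, c).1 * chi hπ hp3 3 := by
            ring
        _ = _ := by rw [e7, one_mul]
    have e9 : ∀ s : ZMod p × ZMod p, 1 - s.2 - (1 - s.1 - s.2) = s.1 := fun s => by ring
    rw [e6] at key
    have e10 : ∑ s ∈ S, (chi hπ hp3 s.1 * chi hπ hp3 s.2 * chi hπ hp3 (1 - s.1 - s.2) - 1) -
        3 * (chi hπ hp3 3 - 1) =
        -Jc hπ hp3 - 1 - (((p : ℤ) - 1) * (p - 2) : ℤ) - 3 * (chi hπ hp3 3 - 1) := by rw [e1]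
    rw [← e10]
    exact key
  · intro s hs
    rw [hS, Finset.mem_erase, hmem] at hs ⊢
    obtain ⟨h1, h2, h4, h5⟩ := hs
    refine ⟨fun h => h1 ?_, h4, h5, ?_⟩
    · have h6 : s.2 = c := congrArg Prod.fst h
      have h7 : 1 - s.1 - s.2 = c := congrArg Prod.snd h
      have h8 : s.1 = c := by
        rw [h6] at h7
        linear_combination -h7 + hcc
      exact Prod.ext h8 h6
    · show 1 - s.2 - (1 - s.1 - s.2) ≠ 0
      have : 1 - s.2 - (1 - s.1 - s.2) = s.1 := by ring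
      rw [this]
      exact h2
  · intro s _
    show (1 - s.2 - (1 - s.1 - s.2), 1 - (1 - s.1 - s.2) - (1 - s.2 - (1 - s.1 - s.2))) = s
    apply Prod.ext
    · show 1 - s.2 - (1 - s.1 - s.2) = s.1
      ring
    · show 1 - (1 - s.1 - s.2) - (1 - s.2 - (1 - s.1 - s.2)) = s.2
      ring
  · intro s hs h
    rw [hS, Finset.mem_erase] at hs
    apply hs.1
    have h6 : s.2 = s.1 := congrArg Prod.fst h
    have h7 : 1 - s.1 - s.2 = s.2 := congrArg Prod.snd h
    have h8 : 3 * s.1 = 1 := by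
      rw [h6] at h7
      linear_combination -h7
    have h9 : s.1 = c := by
      apply mul_left_cancel₀ h3
      rw [h8, h3c]
    exact Prod.ext h9 (h6.trans h9)
  · intro s hs
    rw [hS, Finset.mem_erase, hmem] at hs
    exact chi_cube hπ hp3 hs.2.1

end

end Pool.Agent.Y692.QS
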