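import Pool.Agent.Y692.QS.Jac

/-!
Project QT, task N4: rational cubic reciprocity.
-/

set_option autoImplicit false

open Complex

namespace Pool.Agent.Y692.QS

/-- `κ` computes the cubic symbols of `n` -/
structure Kap (n : ℤ) (κ : Ei → Ei) : Prop where
  mul : ∀ α β : Ei, IsCoprime (nr α) n → IsCoprime (nr β) n → (3 : Ei) ∣ α - 1 → (3 : Ei) ∣ β - 1 →
    κ (α * β) = κ α * κ β
  per : ∀ α β : Ei, IsCoprime (nr α) n → IsCoprime (nr β) n → (3 : Ei) ∣ α - 1 → (3 : Ei) ∣ β - 1 →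
    ((9 * n : ℤ) : Ei) ∣ α - β → κ α = κ β
  cube : ∀ α : Ei, IsCoprime (nr α) n → (3 : Ei) ∣ α - 1 → κ α ^ 3 = 1
  str : ∀ α : Ei, IsCoprime (nr α) n → (3 : Ei) ∣ α - 1 → κ (star α) = star (κ α)
  val : ∀ (p : ℕ) [Fact p.Prime] (π : Ei) (hπ : nr π = p) (hp3 : p ≠ 3), ¬ (p : ℤ) ∣ n →
    chi hπ hp3 ((n : ℤ) : ZMod p) = κ (ns π)

theorem Kap.prod {n n' : ℤ} {κ κ' : Ei → Ei} (h : Kap n κ) (h' : Kap n' κ') :
    Kap (n * n') (fun α => κ α * κ' α) where
  mul α β h1 h2 h3 h4 := by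
    obtain ⟨a1, a2⟩ := IsCoprime.mul_right_iff.1 h1
    obtain ⟨b1, b2⟩ := IsCoprime.mul_right_iff.1 h2
    rw [h.mul α β a1 b1 h3 h4, h'.mul α β a2 b2 h3 h4]
    ring
  per α β h1 h2 h3 h4 h5 := by
    obtain ⟨a1, a2⟩ := IsCoprime.mul_right_iff.1 h1
    obtain ⟨b1, b2⟩ := IsCoprime.mul_right_iff.1 h2
    rw [h.per α β a1 b1 h3 h4 (dvd_trans (int_dvd_int.2 ⟨n', by ring⟩) h5),
      h'.per α β a2 b2 h3 h4 (dvd_trans (int_dvd_int.2 ⟨n, by ring⟩) h5)]
  cube α h1 h2 := by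
    obtain ⟨a1, a2⟩ := IsCoprime.mul_right_iff.1 h1
    rw [mul_pow, h.cube α a1 h2, h'.cube α a2 h2, one_mul]
  str α h1 h2 := by
    obtain ⟨a1, a2⟩ := IsCoprime.mul_right_iff.1 h1
    rw [h.str α a1 h2, h'.str α a2 h2, star_mul, mul_comm]
  val p _ π hπ hp3 hn := by
    push_cast
    rw [map_mul, h.val p π hπ hp3 (fun h' => hn (Dvd.dvd.mul_right h' _)),
      h'.val p π hπ hp3 (fun h' => hn (Dvd.dvd.mul_left h' _))]

theorem Kap.one : Kap 1 (fun _ => 1) where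
  mul _ _ _ _ _ _ := (mul_one _).symm
  per _ _ _ _ _ _ _ := rfl
  cube _ _ _ := one_pow 3
  str _ _ _ := star_one _ |>.symm
  val p _ π hπ hp3 _ := by
    rw [Int.cast_one, map_one]

theorem Kap.neg_one : Kap (-1) (fun _ => 1) where
  mul _ _ _ _ _ _ := (mul_one _).symm
  per _ _ _ _ _ _ _ := rfl
  cube _ _ _ := one_pow 3
  str _ _ _ := star_one _ |>.symm
  val p _ π hπ hp3 _ := by
    rw [Int.cast_neg, Int.cast_one, chi_neg_one]

/-! ### the primary associate and the Jacobi sum -/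

section

variable {p : ℕ} [hp : Fact p.Prime] {π : Ei}

theorem J_mod_three (hπ : nr π = p) (hp3 : p ≠ 3) : (3 : Ei) ∣ -Jc hπ hp3 - 1 := by
  have h9 := J_mod_nine hπ hp3
  obtain ⟨k, hk⟩ := p_mod hπ hp3
  have h2 := hp.out.two_le
  have hk' : (p : ℤ) - 1 = 3 * k := by
    have : ((p - 1 : ℕ) : ℤ) = ((3 * k : ℕ) : ℤ) := by rw [hk]
    push_cast [Nat.cast_sub (show 1 ≤ p by omega)] at this
    exact this
  have h3 : (3 : Ei) ∣ (((p : ℤ) - 1) * (p - 2) : ℤ) := by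
    rw [hk']
    refine ⟨((k : ℤ) * ((p : ℤ) - 2) : ℤ), ?_⟩
    push_cast
    ring
  have h4 : (3 : Ei) ∣ -Jc hπ hp3 - 1 - (((p : ℤ) - 1) * (p - 2) : ℤ) - 3 * (chi hπ hp3 3 - 1) :=
    dvd_trans ⟨3, by norm_num⟩ h9
  have h5 : (3 : Ei) ∣ 3 * (chi hπ hp3 3 - 1) := dvd_mul_right _ _
  have : -Jc hπ hp3 - 1 = (-Jc hπ hp3 - 1 - (((p : ℤ) - 1) * (p - 2) : ℤ) -
      3 * (chi hπ hp3 3 - 1)) + (((p : ℤ) - 1) * (p - 2) : ℤ) + 3 * (chi hπ hp3 3 - 1) := by ring
  rw [this]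
  exact dvd_add (dvd_add h4 h3) h5

theorem ns_pi (hπ : nr π = p) (hp3 : p ≠ 3) : ns π = -Jc hπ hp3 := by
  have h1 := ns_fix (J_mod_three hπ hp3)
  obtain ⟨u, hu, hJ⟩ := J_assoc hπ hp3
  have h2 : -Jc hπ hp3 = (-u) * π := by rw [hJ]; ring
  rw [h2, ns_mul, ns_unit hu.neg, one_mul] at h1
  rw [h1, h2]

end

/-! ### the symbol of `3` -/

/-- cube roots of unity from residues modulo three -/
def f3 (x : ZMod 3) : Ei := if x = 0 then 1 else if x = 1 then w else w ^ 2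

/-- the symbol of three -/
def k3 (α : Ei) : Ei := f3 ((α.im / 3 : ℤ) : ZMod 3)

theorem f3_add (x y : ZMod 3) : f3 (x + y) = f3 x * f3 y := by
  revert x y
  decide

theorem f3_neg (x : ZMod 3) : f3 (-x) = star (f3 x) := by
  revert x
  decide

theorem f3_cube (x : ZMod 3) : f3 x ^ 3 = 1 := by
  revert x
  decide

theorem prim_form {α : Ei} (h : (3 : Ei) ∣ α - 1) : ∃ a b : ℤ, α.re = 1 + 3 * a ∧ α.im = 3 * b := by
  have h1 : (((3 : ℤ) : Ei)) ∣ α - 1 := by exact_mod_cast h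
  obtain ⟨⟨a, ha⟩, ⟨b, hb⟩⟩ := int_dvd.1 h1
  rw [QuadraticAlgebra.re_sub] at ha
  rw [QuadraticAlgebra.im_sub] at hb
  have e1 : (1 : Ei).re = 1 := rfl
  have e2 : (1 : Ei).im = 0 := rfl
  rw [e1] at ha
  rw [e2] at hb
  exact ⟨a, b, by linarith, by linarith⟩

theorem k3_of {α : Ei} {b : ℤ} (h : α.im = 3 * b) : k3 α = f3 (b : ZMod 3) := by
  unfold k3
  rw [h, Int.mul_ediv_cancel_left _ (by norm_num)]

theorem Kap.three : Kap 3 k3 where
  mul α β _ _ h1 h2 := by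
    obtain ⟨a, b, ha, hb⟩ := prim_form h1
    obtain ⟨a', b', ha', hb'⟩ := prim_form h2
    have h3 : (α * β).im = 3 * (b + b' + 3 * (a * b' + a' * b - b * b')) := by
      rw [mul_im, ha, hb, ha', hb']
      ring
    rw [k3_of h3, k3_of hb, k3_of hb', ← f3_add]
    congr 1
    push_cast
    have : (3 : ZMod 3) = 0 := by decide
    rw [this]
    ring
  per α β _ _ h1 h2 h3 := by
    obtain ⟨a, b, ha, hb⟩ := prim_form h1
    obtain ⟨a', b', ha', hb'⟩ := prim_form h2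
    obtain ⟨-, k, hk⟩ := int_dvd.1 h3
    rw [QuadraticAlgebra.im_sub, hb, hb'] at hk
    rw [k3_of hb, k3_of hb']
    have : b = b' + 3 * (3 * k) := by linarith
    rw [this]
    push_cast
    have : (3 : ZMod 3) = 0 := by decide
    rw [this]
    congr 1
    ring
  cube α _ _ := f3_cube _
  str α _ h1 := by
    obtain ⟨a, b, ha, hb⟩ := prim_form h1
    have h2 : (star α).im = 3 * (-b) := by rw [star_im, hb]; ring
    rw [k3_of h2, k3_of hb, ← f3_neg]
    push_cast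
    rfl
  val p _ π hπ hp3 _ := by
    have h9 := J_mod_nine hπ hp3
    rw [← ns_pi hπ hp3] at h9
    have h3 : (3 : Ei) ∣ ns π - 1 := by
      rw [ns_pi hπ hp3]
      exact J_mod_three hπ hp3
    obtain ⟨a, b, ha, hb⟩ := prim_form h3
    have h9' : (((9 : ℤ) : Ei)) ∣ ns π - 1 - (((p : ℤ) - 1) * (p - 2) : ℤ) - 3 * (chi hπ hp3 3 - 1) := by
      exact_mod_cast h9
    obtain ⟨-, k, hk⟩ := int_dvd.1 h9'
    rw [k3_of hb]
    have e0 : (((3 : ℤ)) : ZMod p) = 3 := by norm_num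
    rw [e0]
    have h30 : (3 : ZMod p) ≠ 0 := three_ne hp3
    have him : (ns π - 1 - (((p : ℤ) - 1) * (p - 2) : ℤ) - 3 * (chi hπ hp3 3 - 1)).im =
        3 * b - 3 * (chi hπ hp3 3).im := by
      rw [QuadraticAlgebra.im_sub, QuadraticAlgebra.im_sub, QuadraticAlgebra.im_sub,
        QuadraticAlgebra.im_intCast, mul_im, QuadraticAlgebra.im_sub, hb]
      have e1 : (1 : Ei).im = 0 := rfl
      have e2 : (3 : Ei).im = 0 := rfl
      have e3 : (3 : Ei).re = 3 := rfl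
      rw [e1, e2, e3]
      ring
    rw [him] at hk
    have hb2 : b = (chi hπ hp3 3).im + 3 * k := by linarith
    have hb3 : ((b : ℤ) : ZMod 3) = (((chi hπ hp3 3).im : ℤ) : ZMod 3) := by
      rw [hb2]
      push_cast
      have : (3 : ZMod 3) = 0 := by decide
      rw [this]
      ring
    rw [hb3]
    rcases cube_cases (chi_cube hπ hp3 h30) with h | h | h <;> rw [h] <;> decide

/-! ### the symbol of a prime `q ≠ 3` -/

section

variable (q : ℕ) [hq : Fact q.Prime]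

/-- an algebraic closure of the prime field -/
abbrev Kq : Type := AlgebraicClosure (ZMod q)

theorem three_ne_k (hq3 : q ≠ 3) : (3 : Kq q) ≠ 0 := by
  intro h
  have h1 : ((3 : ℕ) : Kq q) = 0 := by exact_mod_cast h
  rw [CharP.cast_eq_zero_iff (Kq q) q] at h1
  exact hq3 ((Nat.prime_dvd_prime_iff_eq hq.out Nat.prime_three).1 h1)

theorem exists_z (hq3 : q ≠ 3) : ∃ z : Kq q, z * z = -1 - z := by
  have : NeZero ((3 : ℕ) : Kq q) := ⟨by exact_mod_cast three_ne_k q hq3⟩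
  obtain ⟨z, hz⟩ := HasEnoughRootsOfUnity.exists_primitiveRoot (Kq q) 3
  refine ⟨z, ?_⟩
  have h1 := hz.geom_sum_eq_zero (by norm_num)
  rw [Finset.sum_range_succ, Finset.sum_range_succ, Finset.sum_range_one] at h1
  linear_combination h1

/-- the image of `w` -/
noncomputable def zq (hq3 : q ≠ 3) : Kq q := Classical.choose (exists_z q hq3)

theorem zq_sq (hq3 : q ≠ 3) : zq q hq3 * zq q hq3 = -1 - zq q hq3 :=
  Classical.choose_spec (exists_z q hq3)

/-- the homomorphism -/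
noncomputable def rq (hq3 : q ≠ 3) : Ei →+* Kq q := hom (zq q hq3) (zq_sq q hq3)

theorem int_frob (n : ℤ) : ((n : ℤ) : Kq q) ^ q = n := by
  have h : ((n : ℤ) : Kq q) = algebraMap (ZMod q) (Kq q) (n : ZMod q) := by
    rw [map_intCast]
  rw [h, ← map_pow, ZMod.pow_card]

theorem rq_int (hq3 : q ≠ 3) (n : ℤ) : rq q hq3 (n : Ei) = n := map_intCast _ _

theorem q_mod (hq3 : q ≠ 3) : q % 3 = 1 ∨ q % 3 = 2 := by
  have h0 : q % 3 ≠ 0 := by
    intro h
    exact hq3 ((Nat.prime_dvd_prime_iff_eq Nat.prime_three hq.out).1 (Nat.dvd_of_mod_eq_zero h)).symm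
  omega

theorem pow_mod_one {k : Type*} [Monoid k] {z : k} (h : z ^ 3 = 1) {n : ℕ} (hn : n % 3 = 1) :
    z ^ n = z := by
  obtain ⟨j, rfl⟩ : ∃ j, n = 3 * j + 1 := ⟨n / 3, by omega⟩
  rw [pow_succ, pow_mul, h, one_pow, one_mul]

theorem pow_mod_two {k : Type*} [Monoid k] {z : k} (h : z ^ 3 = 1) {n : ℕ} (hn : n % 3 = 2) :
    z ^ n = z ^ 2 := by
  obtain ⟨j, rfl⟩ : ∃ j, n = 3 * j + 2 := ⟨n / 3, by omega⟩
  rw [pow_add, pow_mul, h, one_pow, one_mul]

theorem rq_frob_one (hq3 : q ≠ 3) (h1 : q % 3 = 1) (α : Ei) : rq q hq3 α ^ q = rq q hq3 α := by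
  unfold rq
  rw [hom_apply, add_pow_char, mul_pow, int_frob, int_frob]
  rw [pow_mod_one (z_cube (zq_sq q hq3)) h1]

theorem rq_frob_two (hq3 : q ≠ 3) (h1 : q % 3 = 2) (α : Ei) :
    rq q hq3 α ^ q = rq q hq3 (star α) := by
  unfold rq
  rw [hom_apply, hom_apply, add_pow_char, mul_pow, int_frob, int_frob, star_re, star_im]
  have h4 : zq q hq3 ^ q = -1 - zq q hq3 := by
    rw [pow_mod_two (z_cube (zq_sq q hq3)) h1, pow_two, zq_sq]
  rw [h4]
  push_cast
  ring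

/-- the symbol of `q` with values in the field of characteristic `q` -/
noncomputable def KK (hq3 : q ≠ 3) (α : Ei) : Kq q :=
  if q % 3 = 1 then (rq q hq3 ((nr α : Ei) * α)) ^ (2 * ((q - 1) / 3))
  else (rq q hq3 ((nr α : Ei) * α)) ^ ((q + 1) / 3) * (rq q hq3 (nr α : Ei))⁻¹

theorem rq_nr (hq3 : q ≠ 3) {α : Ei} (h : IsCoprime (nr α) (q : ℤ)) : rq q hq3 (nr α : Ei) ≠ 0 := by
  rw [rq_int]
  intro h1
  rw [CharP.intCast_eq_zero_iff (Kq q) q] at h1
  have h2 := h.symm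
  rw [Prime.coprime_iff_not_dvd (Nat.prime_iff_prime_int.1 hq.out)] at h2
  exact h2 h1

theorem rq_ne (hq3 : q ≠ 3) {α : Ei} (h : IsCoprime (nr α) (q : ℤ)) : rq q hq3 α ≠ 0 := by
  intro h1
  apply rq_nr q hq3 h
  rw [← mul_star, map_mul, h1, zero_mul]

theorem KK_mul (hq3 : q ≠ 3) (α β : Ei) : KK q hq3 (α * β) = KK q hq3 α * KK q hq3 β := by
  unfold KK
  rw [nr_mul]
  split_ifs with h
  · push_cast
    rw [← mul_pow, ← map_mul]
    congr 2
    ring
  · push_cast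
    simp only [map_mul, mul_pow, mul_inv]
    ring

theorem KK_cube (hq3 : q ≠ 3) {α : Ei} (h : IsCoprime (nr α) (q : ℤ)) : KK q hq3 α ^ 3 = 1 := by
  have h0 := rq_nr q hq3 h
  have h1 := rq_ne q hq3 h
  have h2 : rq q hq3 ((nr α : Ei) * α) ≠ 0 := by
    rw [map_mul]
    exact mul_ne_zero h0 h1
  have hq1 := hq.out.one_lt
  unfold KK
  rcases q_mod q hq3 with hm | hm
  · rw [if_pos hm, ← pow_mul]
    have e1 : 2 * ((q - 1) / 3) * 3 = (q - 1) * 2 := by omega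
    rw [e1, pow_mul]
    have h3 := rq_frob_one q hq3 hm ((nr α : Ei) * α)
    have h4 : rq q hq3 ((nr α : Ei) * α) ^ (q - 1) = 1 := by
      apply mul_right_cancel₀ h2
      rw [← pow_succ, one_mul]
      have : q - 1 + 1 = q := by omega
      rw [this, h3]
    rw [h4, one_pow]
  · rw [if_neg (by omega), mul_pow, ← pow_mul]
    have e1 : (q + 1) / 3 * 3 = q + 1 := by omega
    rw [e1, pow_succ, rq_frob_two q hq3 hm, ← map_mul]
    have e2 : star ((nr α : Ei) * α) * ((nr α : Ei) * α) = (nr α : Ei) ^ 3 := by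
      rw [mul_comm, mul_star, nr_mul, nr_int]
      push_cast
      ring
    rw [e2, map_pow, ← mul_pow, mul_inv_cancel₀ h0, one_pow]

theorem KK_star (hq3 : q ≠ 3) {α : Ei} (h : IsCoprime (nr α) (q : ℤ)) :
    KK q hq3 α * KK q hq3 (star α) = 1 := by
  have h0 := rq_nr q hq3 h
  have hq1 := hq.out.one_lt
  rw [← KK_mul, mul_star]
  unfold KK
  rw [nr_int]
  have e0 : (((nr α) ^ 2 : ℤ) : Ei) * (nr α : Ei) = (nr α : Ei) ^ 3 := by push_cast; ring
  rw [e0, map_pow]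
  have hf : rq q hq3 (nr α : Ei) ^ q = rq q hq3 (nr α : Ei) := by
    rw [rq_int, int_frob]
  rcases q_mod q hq3 with hm | hm
  · rw [if_pos hm, ← pow_mul]
    have e1 : 3 * (2 * ((q - 1) / 3)) = (q - 1) * 2 := by omega
    rw [e1, pow_mul]
    have h4 : rq q hq3 (nr α : Ei) ^ (q - 1) = 1 := by
      apply mul_right_cancel₀ h0
      rw [← pow_succ, one_mul]
      have : q - 1 + 1 = q := by omega
      rw [this, hf]
    rw [h4, one_pow]
  · rw [if_neg (by omega), ← pow_mul]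
    have e1 : 3 * ((q + 1) / 3) = q + 1 := by omega
    rw [e1, pow_succ, hf]
    push_cast
    rw [map_pow, pow_two]
    exact mul_inv_cancel₀ (mul_ne_zero h0 h0)

theorem KK_per (hq3 : q ≠ 3) {α β : Ei} (h : ((q : ℤ) : Ei) ∣ α - β) :
    KK q hq3 α = KK q hq3 β := by
  have hz : rq q hq3 ((q : ℤ) : Ei) = 0 := by
    rw [rq_int]
    push_cast
    exact CharP.cast_eq_zero _ q
  have h1 : rq q hq3 α = rq q hq3 β := by
    obtain ⟨c, hc⟩ := h
    rw [← sub_eq_zero, ← map_sub, hc, map_mul, hz, zero_mul]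
  have h2 : rq q hq3 (nr α : Ei) = rq q hq3 (nr β : Ei) := by
    have h3 : ((q : ℤ) : Ei) ∣ (nr α : Ei) - (nr β : Ei) := by
      rw [← mul_star, ← mul_star]
      have e : α * star α - β * star β = (α - β) * star α + β * (star (α - β)) := by
        rw [star_sub]; ring
      rw [e]
      refine dvd_add (Dvd.dvd.mul_right h _) (Dvd.dvd.mul_left ?_ _)
      obtain ⟨c, hc⟩ := h
      refine ⟨star c, ?_⟩
      rw [hc, star_mul, mul_comm]
      congr 1
    obtain ⟨c, hc⟩ := h3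
    rw [← sub_eq_zero, ← map_sub, hc, map_mul, hz, zero_mul]
  unfold KK
  rw [map_mul, map_mul, h1, h2]

theorem KK_neg (hq3 : q ≠ 3) (α : Ei) : KK q hq3 (-α) = KK q hq3 α := by
  unfold KK
  rw [nr_neg]
  have e : (nr α : Ei) * (-α) = -((nr α : Ei) * α) := by ring
  rw [e, map_neg]
  rcases q_mod q hq3 with hm | hm
  · rw [if_pos hm, if_pos hm, neg_pow, Even.neg_one_pow ⟨_, two_mul _⟩, one_mul]
  · rw [if_neg (by omega), if_neg (by omega)]
    congr 1
    rcases hq.out.eq_two_or_odd' with h2 | h2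
    · subst h2
      have : (-(rq 2 hq3 ((nr α : Ei) * α))) = rq 2 hq3 ((nr α : Ei) * α) := CharTwo.neg_eq _
      rw [this]
    · have : Even ((q + 1) / 3) := by
        obtain ⟨k, hk⟩ := h2
        refine ⟨(q + 1) / 6, ?_⟩
        omega
      rw [neg_pow, this.neg_one_pow, one_mul]

/-- the symbol of `q` -/
noncomputable def kq (hq3 : q ≠ 3) (α : Ei) : Ei := cu (zq q hq3) (KK q hq3 α)

theorem val_q (hq3 : q ≠ 3) {p : ℕ} [hp : Fact p.Prime] {π : Ei} (hπ : nr π = p) (hp3 : p ≠ 3)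
    (hpq : p ≠ q) : rq q hq3 (chi hπ hp3 ((q : ℕ) : ZMod p)) = KK q hq3 (ns π) := by
  set r := rq q hq3 with hr
  set χk : MulChar (ZMod p) (Kq q) := (chi hπ hp3).ringHomComp r with hχk
  have hinj : ∀ u v : Ei, u ^ 3 = 1 → v ^ 3 = 1 → r u = r v → u = v := fun u v hu hv h =>
    hom_inj (zq_sq q hq3) (three_ne_k q hq3) hu hv h
  have hne : χk ≠ 1 := comp_ne_one hπ hp3 r hinj
  have hc3 : χk ^ 3 = 1 := by
    rw [hχk, MulChar.ringHomComp_pow, chi_pow_three]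
    exact MulChar.ringHomComp_one r
  have hord : orderOf χk = 3 := orderOf_eq_prime hc3 hne
  have hpk : ((p : ℕ) : Kq q) ≠ 0 := by
    intro h
    rw [CharP.cast_eq_zero_iff (Kq q) q] at h
    exact hpq ((Nat.prime_dvd_prime_iff_eq hq.out hp.out).1 h).symm
  have : NeZero ((p : ℕ) : Kq q) := ⟨hpk⟩
  obtain ⟨ζ, hζ⟩ := HasEnoughRootsOfUnity.exists_primitiveRoot (Kq q) p
  have : NeZero p := ⟨hp.out.ne_zero⟩
  have hψ := AddChar.zmodChar_primitive_of_primitive_root p hζ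
  set ψ : AddChar (ZMod p) (Kq q) := AddChar.zmodChar p
    ((IsPrimitiveRoot.iff_def ζ p).mp hζ).left with hψd
  set G : Kq q := gaussSum χk ψ with hG
  have hneg : χk (-1) = 1 := by
    rw [hχk, MulChar.ringHomComp_apply, chi_neg_one, map_one]
  have hJ : nr (Jc hπ hp3) = p := Jc_nr hπ hp3
  have hG3 : G ^ 3 = r ((nr (Jc hπ hp3) : Ei) * Jc hπ hp3) := by
    have h1 := gaussSum_pow_eq_prod_jacobiSum (χ := χk) (ψ := ψ) (by rw [hord]; norm_num) hψ
    rw [hord, hneg, one_mul] at h1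
    have h2 : Finset.Ico 1 (3 - 1) = {1} := by decide
    rw [h2, Finset.prod_singleton, pow_one, ZMod.card] at h1
    rw [hG, h1, map_mul, hJ]
    congr 1
    · push_cast
      rw [map_natCast]
    · exact jacobiSum_ringHomComp _ _ _
  have hGG : G * gaussSum χk⁻¹ ψ⁻¹ = (p : Kq q) := by
    have h1 := gaussSum_mul_gaussSum_eq_card hne hψ
    rw [ZMod.card] at h1
    exact h1
  have hG0 : G ≠ 0 := by
    intro h
    rw [h, zero_mul] at hGG
    exact hpk hGG.symm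
  have hcopr : Nat.Coprime q p := (Nat.coprime_primes hq.out hp.out).2 (Ne.symm hpq)
  set a : (ZMod p)ˣ := ZMod.unitOfCoprime q hcopr with ha
  have hav : (a : ZMod p) = ((q : ℕ) : ZMod p) := ZMod.coe_unitOfCoprime q hcopr
  have hfrob : (χk ^ q) a * G ^ q = gaussSum (χk ^ q) ψ := by
    rw [hG, gaussSum_frob, AddChar.pow_mulShift, ← hav]
    exact gaussSum_mulShift (χk ^ q) ψ a
  have hca : χk a = r (chi hπ hp3 ((q : ℕ) : ZMod p)) := by
    rw [hχk, MulChar.ringHomComp_apply, hav]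
  have hca3 : χk a ^ 3 = 1 := by
    rw [← MulChar.pow_apply_coe, hc3, MulChar.one_apply_coe]
  rw [← hca, ns_pi hπ hp3, KK_neg]
  unfold KK
  have hq1 := hq.out.one_lt
  rcases q_mod q hq3 with hm | hm
  · rw [if_pos hm, ← hG3, ← pow_mul]
    have e1 : 3 * (2 * ((q - 1) / 3)) = (q - 1) * 2 := by omega
    rw [e1, pow_mul]
    rw [pow_mod_one hc3 hm] at hfrob
    have h2 : χk a * G ^ (q - 1) = 1 := by
      apply mul_right_cancel₀ hG0
      rw [mul_assoc, ← pow_succ, one_mul]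
      have : q - 1 + 1 = q := by omega
      rw [this, hfrob]
    calc χk a = χk a * (χk a * G ^ (q - 1)) ^ 2 := by rw [h2]; ring
      _ = χk a ^ 3 * (G ^ (q - 1)) ^ 2 := by ring
      _ = _ := by rw [hca3, one_mul]
  · rw [if_neg (by omega), ← hG3, ← pow_mul]
    have e1 : 3 * ((q + 1) / 3) = q + 1 := by omega
    rw [e1, hJ]
    have hχ2 : χk ^ q = χk⁻¹ := by
      rw [pow_mod_two hc3 hm, eq_inv_iff_mul_eq_one, ← pow_succ]
      exact hc3
    have hinv : gaussSum χk⁻¹ ψ⁻¹ = gaussSum χk⁻¹ ψ := by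
      have h3 := gaussSum_mulShift χk⁻¹ ψ (-1)
      rw [AddChar.inv_mulShift]
      have h4 : χk⁻¹ ((-1 : (ZMod p)ˣ) : ZMod p) = 1 := by
        have h5 : χk⁻¹ ((-1 : (ZMod p)ˣ) : ZMod p) * χk ((-1 : (ZMod p)ˣ) : ZMod p) = 1 := by
          rw [← MulChar.mul_apply, inv_mul_cancel, MulChar.one_apply_coe]
        have h6 : χk ((-1 : (ZMod p)ˣ) : ZMod p) = 1 := by
          rw [Units.val_neg, Units.val_one, hneg]
        rw [h6, mul_one] at h5
        exact h5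
      rw [h4, one_mul] at h3
      rw [← h3]
      congr 2
    have h2 : (χk ^ q) a = χk a ^ 2 := by
      rw [pow_mod_two hc3 hm, MulChar.pow_apply_coe]
    have h5 : χk a ^ 2 * G ^ (q + 1) = (p : Kq q) := by
      rw [← hGG, hinv, ← hχ2, ← hfrob, h2]
      ring
    have h6 : r ((p : ℤ) : Ei) = (p : Kq q) := by
      push_cast
      rw [map_natCast]
    rw [h6]
    apply mul_right_cancel₀ hpk
    rw [mul_assoc, inv_mul_cancel₀ hpk, mul_one]
    calc χk a * (p : Kq q) = χk a ^ 3 * G ^ (q + 1) := by rw [← h5]; ring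
      _ = _ := by rw [hca3, one_mul]

theorem Kap.prime (hq3 : q ≠ 3) : Kap q (kq q hq3) where
  mul α β h1 h2 _ _ := by
    unfold kq
    rw [KK_mul]
    exact cu_mul (zq_sq q hq3) (three_ne_k q hq3) (KK_cube q hq3 h1) (KK_cube q hq3 h2)
  per α β _ _ _ _ h := by
    unfold kq
    rw [KK_per q hq3 (dvd_trans (int_dvd_int.2 ⟨9, by ring⟩) h)]
  cube α h1 _ := (cu_spec (zq_sq q hq3) (KK_cube q hq3 h1)).1
  str α h1 _ := cu_inv (zq_sq q hq3) (three_ne_k q hq3) (KK_cube q hq3 h1) (KK_star q hq3 h1)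
  val p _ π hπ hp3 hn := by
    have hpq : p ≠ q := by
      rintro rfl
      exact hn dvd_rfl
    have h := val_q q hq3 hπ hp3 hpq
    unfold kq
    rw [← h]
    have hq0 : ((q : ℕ) : ZMod p) ≠ 0 := by
      intro h0
      rw [ZMod.natCast_eq_zero_iff] at h0
      exact hn (by exact_mod_cast h0)
    have := cu_unique (zq_sq q hq3) (three_ne_k q hq3) (chi_cube hπ hp3 hq0)
    rw [Int.cast_natCast]
    exact this.symm

end

/-- every nonzero integer has a cubic symbol -/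
theorem Kap.exists (n : ℤ) (hn : n ≠ 0) : ∃ κ : Ei → Ei, Kap n κ := by
  have key : ∀ m : ℕ, m ≠ 0 → ∃ κ : Ei → Ei, Kap m κ := by
    intro m
    induction m using induction_on_primes with
    | zero => exact fun h => absurd rfl h
    | one => exact fun _ => ⟨_, by simpa using Kap.one⟩
    | prime_mul q a hq ih =>
      intro hqa
      have ha : a ≠ 0 := right_ne_zero_of_mul hqa
      obtain ⟨κ, hκ⟩ := ih ha
      have hq' : Fact q.Prime := ⟨hq⟩
      by_cases h3 : q = 3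
      · subst h3
        exact ⟨_, by simpa using Kap.three.prod hκ⟩
      · exact ⟨_, by simpa using (Kap.prime q h3).prod hκ⟩
  rcases Int.natAbs_eq n with h | h
  · obtain ⟨κ, hκ⟩ := key n.natAbs (Int.natAbs_ne_zero.2 hn)
    exact ⟨κ, by rw [h]; exact hκ⟩
  · obtain ⟨κ, hκ⟩ := key n.natAbs (Int.natAbs_ne_zero.2 hn)
    have h1 := Kap.neg_one.prod hκ
    refine ⟨fun α => 1 * κ α, ?_⟩
    rw [h]
    have : -((n.natAbs : ℕ) : ℤ) = -1 * (n.natAbs : ℤ) := by ring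
    rw [this]
    exact h1

end Pool.Agent.Y692.QS
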